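import Pool.Agent.Q147.GP.Logs
import Pool.Agent.H340R2.LW

/-!
# The period conjecture in bounded degree for Kummer motives with values in a group of finite rank

The periods of the motive `H^1(G_m, {1, γ})` are `2 π i` and `log γ`, and for algebraic `γ` which is
not a root of unity its motivic Galois group has dimension `2`: the period conjecture says that these
two numbers are algebraically independent. We consider the relations of total degree at most `D` (the
linear relations between the periods of the symmetric power of degree `D` of the sum of the motive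
and the unit motive).

**Theorem.** Let `Γ` be a finitely generated group of algebraic numbers. The `γ ∈ Γ` for which the
period conjecture in degree `D` fails, and the roots of unity, form a finite union of subgroups of
`Γ`, and the rank `r` of each of them satisfies `(r + 1) (r + 3) ≤ 4 D`, that is,
`r ≤ √(4 D + 1) - 2`, whatever the rank of `Γ` is.

The second part is relative: let `x_1, ..., x_n` be algebraically independent numbers (a
transcendence basis of the field of periods of an arbitrary motive; for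
`H^1(G_m, {1, γ_1, ..., γ_m})`, if the period conjecture holds for it, the numbers
`2 π i, log γ_1, ..., log γ_m`) and let `W` be a space of finite dimension, over the field `ℚ̄` of
algebraic numbers, of linear forms in `1` and logarithms of algebraic numbers. The `y ∈ W` which
satisfy with `x_1, ..., x_n` a nontrivial relation of degree at most `a_i` in `x_i`, and of arbitrary
degree in `y`, form a finite union of subspaces `U`, and for each of them, `e` being the dimension of
`U + ℚ̄`, we have `q h (e - h) + e ≤ ∏ ((q + 1) a_i + 1)` for all `q` and all `h ≤ e`. For `n = 1`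
this says `⌊e ^ 2 / 4⌋ ≤ a_1`.

The proof. Let `U` be spanned by `u_1, ..., u_e`. For a place of the field of algebraic functions of
`x`, the value of `∑ t_i u_i` and of its conjugates is constant for all `t` outside a finite union of
subspaces. By Gauss' lemma the same holds for the denominator and the degrees in the `x_i` of the
minimal polynomial of `∑ t_i u_i`. Hence either all of these numbers satisfy a relation of the given
degrees, or only those in finitely many proper subspaces (`Dich`), and the first assertion follows by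
induction (`Struct`). In the first case the norms of the elements of the power `(U + ℚ̄) ^ q` are
polynomials of degree at most `q a_i` in `x_i`, up to a common denominator, so that this power has
dimension at most `∏ (q a_i + 1)`. On the other hand, comparing the elements of `(U + ℚ̄) ^ q` and of
`(U + ℚ̄) ^ (q + 1)` which vanish at suitable points, one finds from the hyperplane case of the linear
subgroup theorem (Waldschmidt, Roy) that the dimension grows by at least `h (e - h)` at each step
(`Grow`).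
-/

set_option autoImplicit false

namespace Pool.Agent.Results.MP_5d33ca_ag.KummerMotives

open Module

/-- The logarithm `l` and the number `2 π i` satisfy a nontrivial polynomial relation of total degree
at most `D` with algebraic coefficients. -/
def RelationOfDegree (D : ℕ) (l : ℂ) : Prop :=
  ∃ f : MvPolynomial (Fin 2) (algebraicClosure ℚ ℂ), f ≠ 0 ∧ f.totalDegree ≤ D ∧
    MvPolynomial.aeval ![l, 2 * Real.pi * Complex.I] f = 0

/-- The periods `2 π i` and `log γ` of the motive `H^1(G_m, {1, γ})` satisfy a nontrivial polynomial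
relation of total degree at most `D` with algebraic coefficients, for one value of `log γ`. -/
def FailsInDegree (D : ℕ) (γ : ℂˣ) : Prop :=
  ∃ l : ℂ, Complex.exp l = γ ∧ RelationOfDegree D l

/-- The numbers `γ i` are multiplicatively independent. -/
def MultiplicativelyIndependent {r : ℕ} (γ : Fin r → ℂˣ) : Prop :=
  ∀ c : Fin r → ℤ, ∏ i, γ i ^ c i = 1 → c = 0

/-- The space of all linear combinations, with algebraic coefficients, of `1` and of logarithms of
algebraic numbers. -/
noncomputable def LogForms : Submodule (algebraicClosure ℚ ℂ) ℂ :=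
  Submodule.span (algebraicClosure ℚ ℂ) ({1} ∪ {z : ℂ | IsAlgebraic ℚ (Complex.exp z)})

/-- The number `y` satisfies with `x_1, ..., x_n` a nontrivial polynomial relation with algebraic
coefficients of degree at most `a i` in `x i` and of arbitrary degree in `y`. -/
def RelationOver {n : ℕ} (x : Fin n → ℂ) (a : Fin n → ℕ) (y : ℂ) : Prop :=
  ∃ f : MvPolynomial (Fin (n + 1)) (algebraicClosure ℚ ℂ), f ≠ 0 ∧
    (∀ i : Fin n, f.degreeOf i.succ ≤ a i) ∧
    MvPolynomial.aeval (Fin.cons y x : Fin (n + 1) → ℂ) f = 0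

open Pool.Agent.Y787 (QC mem_QC HypC li_consC)
open Pool.Agent.H301R2.SSE (Lt Lt_log Lt_one)
open Pool.Agent.Q147.GP

theorem transcendental_period : Transcendental (QC ℂ) (2 * Real.pi * Complex.I) := by
  intro h
  have halg : Algebra.IsAlgebraic ℚ (QC ℂ) := (algebraicClosure.isAlgClosure ℚ ℂ).isAlgebraic
  have h1 : IsAlgebraic ℚ (2 * Real.pi * Complex.I) := h.restrictScalars ℚ
  have h2 : IsAlgebraic ℚ (2 * Complex.I) :=
    (isAlgebraic_algebraMap (2 : ℚ)).mul Pool.Agent.H340R2.LW.isAlgebraic_I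
  have h3 : (Real.pi : ℂ) = 2 * Real.pi * Complex.I * (2 * Complex.I)⁻¹ := by
    field_simp
  exact Pool.Agent.H340R2.LW.transcendental_pi_complex (by rw [h3]; exact h1.mul h2.inv)

/-- the relation in the form of the library -/
theorem rel_iff (D : ℕ) (l : ℂ) : RelationOfDegree D l ↔
    RelX (k := QC ℂ) (fun _ : Fin 1 => 2 * Real.pi * Complex.I) (fun _ => D) (fun _ => 1) l :=
  (relX_total_iff _ _ _).symm

theorem algInd_period :
    AlgebraicIndependent (QC ℂ) (fun _ : Fin 1 => 2 * Real.pi * Complex.I) := by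
  rw [algebraicIndependent_unique_type_iff]
  exact transcendental_period

theorem rel_add {D : ℕ} {l : ℂ} (h : RelationOfDegree D l) (c d : QC ℂ) :
    RelationOfDegree D (l + ((c : ℂ) + d * (2 * Real.pi * Complex.I))) := by
  rw [rel_iff] at h ⊢
  have h1 := RelX_add _ algInd_period h (MvPolynomial.C c + MvPolynomial.C d * MvPolynomial.X 0)
    (fun i => by
      refine (MvPolynomial.degreeOf_add_le _ _ _).trans (max_le ?_ ?_)
      · rw [MvPolynomial.degreeOf_C]
        exact Nat.zero_le _
      · refine (MvPolynomial.degreeOf_C_mul_le _ _ _).trans ?_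
        obtain rfl : i = 0 := Subsingleton.elim _ _
        rw [MvPolynomial.degreeOf_X_self])
  rw [map_add, map_mul, MvPolynomial.aeval_X, ← MvPolynomial.algebraMap_eq, AlgHom.commutes,
    AlgHom.commutes] at h1
  exact h1

theorem fails_iff (D : ℕ) (γ : ℂˣ) (l : ℂ) (hl : Complex.exp l = γ) :
    FailsInDegree D γ ↔ RelationOfDegree D l := by
  refine ⟨?_, fun h => ⟨l, hl, h⟩⟩
  rintro ⟨l', hl', h⟩
  obtain ⟨m, hm⟩ := Complex.exp_eq_exp_iff_exists_int.1 (hl.trans hl'.symm)
  rw [hm]
  have := rel_add h 0 (m : QC ℂ)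
  simpa using this

/-- all logarithms of the elements of a finitely generated group lie in a finite dimensional
space -/
theorem exists_space (Γ : Subgroup ℂˣ) (hΓ : Γ.FG) (halg : ∀ γ ∈ Γ, IsAlgebraic ℚ (γ : ℂ)) :
    ∃ W : Submodule (QC ℂ) ℂ, FiniteDimensional (QC ℂ) W ∧ W ≤ Lt ∧
      ∀ γ ∈ Γ, ∀ l : ℂ, Complex.exp l = γ → l ∈ W := by
  classical
  obtain ⟨S, hS⟩ := hΓ
  let T : Finset ℂ := insert (2 * Real.pi * Complex.I) (S.image fun γ : ℂˣ => Complex.log (γ : ℂ))
  let W : Submodule (QC ℂ) ℂ := Submodule.span (QC ℂ) (T : Set ℂ)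
  have hpi : (2 * Real.pi * Complex.I : ℂ) ∈ W :=
    Submodule.subset_span (Finset.mem_coe.2 (Finset.mem_insert_self _ _))
  have hint : ∀ m : ℤ, (m : ℂ) * (2 * Real.pi * Complex.I) ∈ W := by
    intro m
    have := W.smul_mem (m : QC ℂ) hpi
    rwa [Algebra.smul_def, map_intCast] at this
  refine ⟨W, FiniteDimensional.span_finset (QC ℂ) T, ?_, ?_⟩
  · rw [Submodule.span_le]
    intro z hz
    rcases Finset.mem_insert.1 (Finset.mem_coe.1 hz) with rfl | hz
    · refine Lt_log ?_
      rw [Complex.exp_two_pi_mul_I]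
      exact isAlgebraic_one
    · obtain ⟨γ, hγ, rfl⟩ := Finset.mem_image.1 hz
      refine Lt_log ?_
      rw [Complex.exp_log γ.ne_zero]
      exact halg γ (hS ▸ Subgroup.subset_closure (Finset.mem_coe.2 hγ))
  · intro γ hγ
    rw [← hS] at hγ
    refine Subgroup.closure_induction (p := fun (γ : ℂˣ) _ => ∀ l : ℂ, Complex.exp l = γ → l ∈ W)
      ?_ ?_ ?_ ?_ hγ
    · intro γ hγ l hl
      have h1 : Complex.exp l = Complex.exp (Complex.log (γ : ℂ)) := by
        rw [Complex.exp_log γ.ne_zero, hl]
      obtain ⟨m, hm⟩ := Complex.exp_eq_exp_iff_exists_int.1 h1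
      rw [hm]
      exact W.add_mem (Submodule.subset_span (Finset.mem_coe.2 (Finset.mem_insert_of_mem
        (Finset.mem_image.2 ⟨γ, hγ, rfl⟩)))) (hint m)
    · intro l hl
      rw [Units.val_one, Complex.exp_eq_one_iff] at hl
      obtain ⟨m, rfl⟩ := hl
      exact hint m
    · intro γ γ' _ _ h h' l hl
      have h1 : Complex.log (γ : ℂ) ∈ W := h _ (Complex.exp_log γ.ne_zero)
      have h2 : l - Complex.log (γ : ℂ) ∈ W := h' _ (by
        rw [Complex.exp_sub, Complex.exp_log γ.ne_zero, hl, Units.val_mul,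
          mul_div_cancel_left₀ _ γ.ne_zero])
      have h3 := W.add_mem h2 h1
      rwa [sub_add_cancel] at h3
    · intro γ _ h l hl
      have h1 : -l ∈ W := h _ (by
        rw [Complex.exp_neg, hl, ← Units.val_inv_eq_inv_val, inv_inv])
      have h2 := W.neg_mem h1
      rwa [neg_neg] at h2

theorem arith {r D N : ℕ} (hN : r + 2 ≤ N) (h : ∀ h ≤ N, h * (N - h) ≤ D) :
    (r + 1) * (r + 3) ≤ 4 * D := by
  rcases Nat.even_or_odd' r with ⟨s, rfl | rfl⟩
  · have h1 := h (s + 1) (by omega)
    have h2 : (s + 1) * (s + 1) ≤ (s + 1) * (N - (s + 1)) :=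
      Nat.mul_le_mul_left _ (by omega)
    nlinarith
  · have h1 := h (s + 1) (by omega)
    have h2 : (s + 1) * (s + 2) ≤ (s + 1) * (N - (s + 1)) :=
      Nat.mul_le_mul_left _ (by omega)
    nlinarith

/-- the space of logarithms of an exceptional subgroup -/
theorem rank_le {D : ℕ} (U : Submodule (QC ℂ) ℂ) [FiniteDimensional (QC ℂ) U] (hU : U ≤ Lt)
    (hrel : ∀ y ∈ U, RelationOfDegree D y) {r : ℕ} (l : Fin r → ℂ) (hl : ∀ i, l i ∈ U)
    (halg : ∀ i, IsAlgebraic ℚ (Complex.exp (l i)))
    (hind : ∀ c : Fin r → ℤ, Complex.exp (∑ i, (c i : ℂ) * l i) = 1 → c = 0) :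
    (r + 1) * (r + 3) ≤ 4 * D := by
  set τ : ℂ := 2 * Real.pi * Complex.I with hτ
  have hτexp : Complex.exp τ = 1 := Complex.exp_two_pi_mul_I
  have hτ0 : τ ≠ 0 := Complex.two_pi_I_ne_zero
  let v : Fin (r + 1) → ℂ := Fin.cons τ l
  have hvZ : LinearIndependent ℤ v := by
    rw [Fintype.linearIndependent_iff]
    intro g hg
    rw [Fin.sum_univ_succ] at hg
    simp only [v, Fin.cons_zero, Fin.cons_succ, zsmul_eq_mul] at hg
    have h1 : (fun i : Fin r => g i.succ) = 0 := by
      apply hind
      have h2 : ∑ i, (g (Fin.succ i) : ℂ) * l i = -((g 0 : ℂ) * τ) :=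
        eq_neg_of_add_eq_zero_right hg
      rw [h2, Complex.exp_neg, Complex.exp_int_mul, hτexp, one_zpow, inv_one]
    have h3 : ∀ i : Fin r, g i.succ = 0 := fun i => congrFun h1 i
    have h4 : g 0 = 0 := by
      have h5 : (g 0 : ℂ) * τ = 0 := by
        rw [← hg]
        simp [h3]
      rcases mul_eq_zero.1 h5 with h | h
      · exact_mod_cast h
      · exact absurd h hτ0
    exact fun i => Fin.cases h4 h3 i
  have hvQ : LinearIndependent ℚ v := (LinearIndependent.iff_fractionRing ℤ ℚ).1 hvZ
  have hvalg : ∀ j, IsAlgebraic ℚ (Complex.exp (v j)) := by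
    intro j
    refine Fin.cases ?_ (fun i => ?_) j
    · simp only [v, Fin.cons_zero]
      rw [hτexp]
      exact isAlgebraic_one
    · simp only [v, Fin.cons_succ]
      exact halg i
  have hv := li_consC v hvalg hvQ
  let U' : Submodule (QC ℂ) ℂ := U ⊔ Submodule.span (QC ℂ) {1, τ}
  have hfin : FiniteDimensional (QC ℂ) (Submodule.span (QC ℂ) ({1, τ} : Set ℂ)) :=
    FiniteDimensional.span_of_finite _ (Set.toFinite _)
  have hfd : FiniteDimensional (QC ℂ) U' := Submodule.finiteDimensional_sup _ _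
  have hτL : τ ∈ Lt := Lt_log (by rw [hτexp]; exact isAlgebraic_one)
  have hU'L : U' ≤ Lt := by
    refine sup_le hU (Submodule.span_le.2 ?_)
    rintro z (rfl | rfl)
    · exact Lt_one
    · exact hτL
  have h1U : (1 : ℂ) ∈ U' := Submodule.mem_sup_right (Submodule.subset_span (Or.inl rfl))
  have hτU : τ ∈ U' := Submodule.mem_sup_right (Submodule.subset_span (Or.inr rfl))
  have hrel' : ∀ y ∈ U', RelX (k := QC ℂ) (fun _ : Fin 1 => τ) (fun _ => D) (fun _ => 1) y := by
    intro y hy
    obtain ⟨z, hz, z', hz', rfl⟩ := Submodule.mem_sup.1 hy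
    obtain ⟨c, d, rfl⟩ := Submodule.mem_span_pair.1 hz'
    have h1 := (rel_iff D _).1 (rel_add (hrel z hz) c d)
    have h2 : c • (1 : ℂ) + d • τ = (c : ℂ) + d * τ := by
      rw [Algebra.smul_def, Algebra.smul_def, mul_one]
      rfl
    rw [h2]
    exact h1
  have hcard : r + 2 ≤ finrank (QC ℂ) U' := by
    have hmem : ∀ j, (Fin.cons 1 v : Fin (r + 1 + 1) → ℂ) j ∈ U' := by
      intro j
      refine Fin.cases ?_ (fun i => ?_) j
      · rw [Fin.cons_zero]
        exact h1U
      · rw [Fin.cons_succ]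
        refine Fin.cases ?_ (fun i => ?_) i
        · simp only [v, Fin.cons_zero]
          exact hτU
        · simp only [v, Fin.cons_succ]
          exact Submodule.mem_sup_left (hl i)
    have h1 : LinearIndependent (QC ℂ) (fun j : Fin (r + 1 + 1) =>
        (⟨(Fin.cons 1 v : Fin (r + 1 + 1) → ℂ) j, hmem j⟩ : U')) := by
      refine LinearIndependent.of_comp U'.subtype ?_
      exact hv
    have h2 := h1.fintype_card_le_finrank
    rwa [Fintype.card_fin] at h2
  exact arith hcard fun h hh => log_bound_one (Lt := Lt) τ transcendental_period D 1 U' hU'L h1U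
    hrel' hh

/-- the subgroup which belongs to a space of logarithms -/
def expGroup (Γ : Subgroup ℂˣ) (U : Submodule (QC ℂ) ℂ) : Subgroup ℂˣ where
  carrier := {γ | γ ∈ Γ ∧ ∃ l ∈ U, Complex.exp l = γ}
  mul_mem' := by
    rintro a b ⟨ha, l, hl, hla⟩ ⟨hb, m, hm, hmb⟩
    exact ⟨Γ.mul_mem ha hb, l + m, U.add_mem hl hm, by rw [Complex.exp_add, hla, hmb, Units.val_mul]⟩
  one_mem' := ⟨Γ.one_mem, 0, U.zero_mem, by rw [Complex.exp_zero, Units.val_one]⟩
  inv_mem' := by
    rintro a ⟨ha, l, hl, hla⟩
    exact ⟨Γ.inv_mem ha, -l, U.neg_mem hl, by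
      rw [Complex.exp_neg, hla, Units.val_inv_eq_inv_val]⟩

/-- **Main result.** -/
theorem result :
    (∀ (D : ℕ) (γ : ℂˣ) (l : ℂ), Complex.exp l = γ → (FailsInDegree D γ ↔ RelationOfDegree D l)) ∧
    (∀ (D : ℕ) (Γ : Subgroup ℂˣ), Γ.FG → (∀ γ ∈ Γ, IsAlgebraic ℚ (γ : ℂ)) →
      ∃ S : Set (Subgroup ℂˣ), S.Finite ∧
        (∀ γ, (γ ∈ Γ ∧ FailsInDegree D γ) ↔ ∃ Δ ∈ S, γ ∈ Δ) ∧
        ∀ Δ ∈ S, ∀ (r : ℕ) (δ : Fin r → ℂˣ), (∀ i, δ i ∈ Δ) → MultiplicativelyIndependent δ →
          (r + 1) * (r + 3) ≤ 4 * D) ∧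
    ∀ (n : ℕ) (x : Fin n → ℂ), AlgebraicIndependent (algebraicClosure ℚ ℂ) x →
      ∀ (a : Fin n → ℕ) (W : Submodule (algebraicClosure ℚ ℂ) ℂ),
        FiniteDimensional (algebraicClosure ℚ ℂ) W → W ≤ LogForms →
        ∃ S : Set (Submodule (algebraicClosure ℚ ℂ) ℂ), S.Finite ∧
          (∀ y, (y ∈ W ∧ RelationOver x a y) ↔ ∃ U ∈ S, y ∈ U) ∧
          ∀ U ∈ S, ∀ e q h : ℕ,
            e = finrank (algebraicClosure ℚ ℂ)
              (U ⊔ Submodule.span (algebraicClosure ℚ ℂ) {1} : Submodule _ ℂ) → h ≤ e →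
            q * (h * (e - h)) + e ≤ ∏ i, ((q + 1) * a i + 1) := by
  refine ⟨fails_iff, fun D Γ hΓ halg => ?_, fun n x hx a W hWf hW => ?_⟩
  · obtain ⟨W, hWf, hWL, hW⟩ := exists_space Γ hΓ halg
    obtain ⟨UU, hUf, hUU⟩ := exists_subspaces_log _ algInd_period (fun _ => D) (fun _ => 1) W
    refine ⟨expGroup Γ '' UU, hUf.image _, fun γ => ⟨?_, ?_⟩, ?_⟩
    · rintro ⟨hγ, l, hl, hr⟩
      obtain ⟨U, hU, hlU⟩ := (hUU l).1 ⟨hW γ hγ l hl, (rel_iff D l).1 hr⟩
      exact ⟨_, ⟨U, hU, rfl⟩, hγ, l, hlU, hl⟩
    · rintro ⟨_, ⟨U, hU, rfl⟩, hγ, l, hlU, hl⟩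
      exact ⟨hγ, l, hl, (rel_iff D l).2 ((hUU l).2 ⟨U, hU, hlU⟩).2⟩
    · rintro _ ⟨U, hU, rfl⟩ r δ hδ hind
      have hUW : U ≤ W := fun y hy => ((hUU y).2 ⟨U, hU, hy⟩).1
      have : FiniteDimensional (QC ℂ) U := Submodule.finiteDimensional_of_le hUW
      choose hδΓ l hlU hl using hδ
      refine rank_le U (hUW.trans hWL) (fun y hy => (rel_iff D y).2 ((hUU y).2 ⟨U, hU, hy⟩).2)
        l hlU (fun i => ?_) (fun c hc => ?_)
      · rw [hl i]
        exact halg _ (hδΓ i)
      · apply hind
        apply Units.ext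
        rw [Units.coe_prod, Units.val_one, ← hc, Complex.exp_sum]
        refine Finset.prod_congr rfl fun i _ => ?_
        rw [Units.val_zpow_eq_zpow_val, Complex.exp_int_mul, hl i]
  · obtain ⟨UU, hUf, hUU⟩ := exists_subspaces_log x hx a (fun _ => 0) W
    have hrel : ∀ y, RelationOver x a y ↔ RelX (k := QC ℂ) x a (fun _ => 0) y := fun y =>
      (relX_degree_iff x a y).symm
    refine ⟨UU, hUf, fun y => by rw [hrel]; exact hUU y, ?_⟩
    rintro U hU e q h rfl hh
    have hUW : U ≤ W := fun y hy => ((hUU y).2 ⟨U, hU, hy⟩).1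
    have : FiniteDimensional (QC ℂ) U := Submodule.finiteDimensional_of_le hUW
    have hfin : FiniteDimensional (QC ℂ) (Submodule.span (QC ℂ) ({1} : Set ℂ)) :=
      FiniteDimensional.span_of_finite _ (Set.toFinite _)
    have hfd : FiniteDimensional (QC ℂ) (U ⊔ Submodule.span (QC ℂ) {1} : Submodule (QC ℂ) ℂ) :=
      Submodule.finiteDimensional_sup _ _
    refine log_bound (Lt := Lt) x hx a (fun _ => 0) _ ?_ ?_ ?_ hh q
    · refine sup_le (hUW.trans hW) (Submodule.span_le.2 ?_)
      rintro z rfl
      exact Lt_one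
    · exact Submodule.mem_sup_right (Submodule.subset_span rfl)
    · intro y hy
      obtain ⟨z, hz, z', hz', rfl⟩ := Submodule.mem_sup.1 hy
      obtain ⟨c, rfl⟩ := Submodule.mem_span_singleton.1 hz'
      have h1 := RelX_add x hx ((hUU z).2 ⟨U, hU, hz⟩).2 (MvPolynomial.C c) (fun i => by
        rw [MvPolynomial.degreeOf_C])
      rw [← MvPolynomial.algebraMap_eq, AlgHom.commutes] at h1
      have h2 : c • (1 : ℂ) = algebraMap (QC ℂ) ℂ c := by rw [Algebra.smul_def, mul_one]
      rw [h2]
      exact h1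

end Pool.Agent.Results.MP_5d33ca_ag.KummerMotives
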