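import Pool.Agent.Q147.MM.Inst
import Pool.Agent.Q147.MO.Psi
import Pool.Agent.Q147.MP.SeqB
import Pool.Agent.H340R2.LW

/-!
# The period conjecture for tensor products of Kummer motives: linear relations

Let `α_p` (`p` prime) be algebraic numbers with logarithms `l_p`, linearly independent over `ℚ`, and
let `K(α) = H^1(G_m, {1, α})` be the Kummer motive.  Its periods are the entries of the matrix
`(1, log α; 0, 2 π i)`.  The period conjecture says in particular that all linear relations, with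
algebraic coefficients, between the periods of `K(α_{p_1}) ⊗ ⋯ ⊗ K(α_{p_k})` are motivic: the periods
span a space of dimension `(k + 2) 2 ^ (k - 1)` over the field `ℚ̄` of algebraic numbers.

(1) This holds for almost all integers `n = p_1 ⋯ p_k`, for every `k`.

(2) The same relative to an arbitrary motive `N`, with space of periods `V` (any space of numbers of
finite dimension over `ℚ̄`): for almost all `n = p_1 ⋯ p_k` all linear relations between the periods of
`N ⊗ K(α_{p_1}) ⊗ ⋯ ⊗ K(α_{p_k})` come from relations between the periods of the twists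
`N ⊗ (ℚ(0) + ⋯ + ℚ(-k))`; precisely, the dimension of the space of periods is
`∑_{d ∣ n} dim (V + 2 π i V + ⋯ + (2 π i) ^ Ω(n/d) V)`.

(3) There is ONE set `B` of integers for all Nori motives `N` at once (for every countable set of
numbers), closed under divisors and containing almost all integers with at most `k` prime factors for
every `k`, such that (2) holds for the direct sums over all finite subsets `F` of `B`, if the prime
factors of the elements of `F` are `≥ n₀(N, k)`.  Moreover, the only linear forms in logarithms among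
the periods are the obvious ones: those in `V + ⋯ + (2 π i) ^ k V`, plus combinations of the `l_p`.

The proof: the greedy basis of the products of elements of a space with the monomials
`l_n = l_{p_1} ⋯ l_{p_k}`, `(p_1 ⋯ p_j) ^ 3 ≤ p_{j+1}`, contains, by the hyperplane case of the linear
subgroup theorem (Waldschmidt, Roy), everything outside a thin set of exceptions; the integers without
divisors in this set form a set closed under divisors.
-/

set_option autoImplicit false

namespace Pool.Agent.Results.MP_5d33ca_ag.KummerTensors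

open Filter Topology Module
open Pool.Agent.Q147.MM Pool.Agent.Q147.MO Pool.Agent.Q147.MP
open Pool.Agent.Y787 (QC mem_QC)
open Pool.Agent.H301R2.SSE (Lt Lt_log Lt_one)

/-- algebraic over the rational numbers -/
abbrev Alg (z : ℂ) : Prop := IsAlgebraic ℚ z

/-- the field of algebraic numbers -/
noncomputable abbrev Qbar : IntermediateField ℚ ℂ := algebraicClosure ℚ ℂ

/-- the matrix of the periods of the Kummer motive `K(α) = H^1(G_m, {1, α})`, where `l` is the
logarithm of `α`: the rows belong to the path from `1` to `α` and to the loop around `0`, the columns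
to the differentials `dx / (α - 1)` and `dx / x` -/
noncomputable def kummer (l : ℂ) : Matrix (Fin 2) (Fin 2) ℂ :=
  !![1, l; 0, 2 * Real.pi * Complex.I]

/-- the space spanned by the products of the elements of `V` (the periods of a motive `N`) and the
entries of the Kronecker product of the matrices `kummer (l p)`, `p` a prime factor of `n` -/
noncomputable def periods (V : Submodule Qbar ℂ) (l : ℕ → ℂ) (n : ℕ) : Submodule Qbar ℂ :=
  Submodule.span Qbar {z | ∃ v ∈ V, ∃ r c : ℕ → Fin 2,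
    z = v * ∏ p ∈ n.primeFactors, kummer (l p) (r p) (c p)}

/-- the space `V + 2 π i V + ... + (2 π i) ^ m V` (the periods of `N ⊗ (ℚ(0) + ... + ℚ(-m))`) -/
noncomputable def twists (V : Submodule Qbar ℂ) (m : ℕ) : Submodule Qbar ℂ :=
  Submodule.span Qbar {z | ∃ v ∈ V, ∃ j ≤ m, z = v * (2 * Real.pi * Complex.I) ^ j}

/-- number of prime factors, with multiplicity -/
abbrev Om (n : ℕ) : ℕ := ArithmeticFunction.cardFactors n

/-- the largest value of `Om (n / d)` for the multiples `n` of `d` in `F` -/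
def top (F : Finset ℕ) (d : ℕ) : ℕ := (F.filter fun n => d ∣ n).sup fun n => Om (n / d)

/-- the linear forms in `1` and logarithms of algebraic numbers, with algebraic coefficients -/
noncomputable def LogForms : Submodule Qbar ℂ :=
  Submodule.span Qbar ({1} ∪ {z : ℂ | Alg (Complex.exp z)})

/-- the number of the `n ∈ B` with `1 ≤ n ≤ N` -/
noncomputable def count (B : Set ℕ) (N : ℕ) : ℕ := Set.ncard {n | n ∈ B ∧ 1 ≤ n ∧ n ≤ N}

/-- `B` contains almost all integers with at most `k` prime factors, for every `k ≥ 1` -/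
def AlmostAll (B : Set ℕ) : Prop := ∀ k : ℕ, 1 ≤ k →
  Tendsto (fun N : ℕ => (count {n | n ∈ B ∧ Om n ≤ k} N : ℝ) / count {n | Om n ≤ k} N) atTop (𝓝 1)

/-- `n` is squarefree, `n = p_1 ⋯ p_k`, and all linear relations between the periods of
`N ⊗ K(α_{p_1}) ⊗ ⋯ ⊗ K(α_{p_k})` come from relations between the periods of the twists of `N`:
the space of the periods has the dimension `∑ dim (V + 2 π i V + ... + (2 π i) ^ (k - j) V)`, the sum
over all the products `d` of `j` of the primes `p_i`, for all `j` -/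
def Generic (V : Submodule Qbar ℂ) (l : ℕ → ℂ) (n : ℕ) : Prop :=
  Squarefree n ∧ finrank Qbar (periods V l n) = ∑ d ∈ n.divisors, finrank Qbar (twists V (Om (n / d)))

/-- `B` is a set of positive integers which contains `1` and all divisors of its elements -/
def DivisorClosed (B : Set ℕ) : Prop := 1 ∈ B ∧ ∀ n ∈ B, 0 < n ∧ ∀ d : ℕ, d ∣ n → d ∈ B

/-- `n` is squarefree, `n = p_1 ⋯ p_k`, and the periods of `K(α_{p_1}) ⊗ ⋯ ⊗ K(α_{p_k})` span a space
of dimension `(k + 2) 2 ^ (k - 1)` -/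
def GenericOne (l : ℕ → ℂ) (n : ℕ) : Prop :=
  Squarefree n ∧
    2 * finrank Qbar (periods (Submodule.span Qbar {1}) l n) = (Om n + 2) * 2 ^ Om n

/-- `F` consists of elements of `B` with at most `k` prime factors, and these are `≥ n₀` -/
def Admissible (B : Set ℕ) (k n₀ : ℕ) (F : Finset ℕ) : Prop :=
  ∀ n ∈ F, n ∈ B ∧ Om n ≤ k ∧ ∀ p : ℕ, p.Prime → p ∣ n → n₀ ≤ p

/-- the sum of the spaces `periods V l n`, `n ∈ F` -/
noncomputable def sumPeriods (V : Submodule Qbar ℂ) (l : ℕ → ℂ) (F : Finset ℕ) :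
    Submodule Qbar ℂ := ⨆ n ∈ F, periods V l n

/-- the formula for the dimension of `sumPeriods V l F`: the sum of the dimensions of
`V + ⋯ + (2 π i) ^ (top F d) V` over all the divisors `d` of the elements of `F` -/
def Formula (V : Submodule Qbar ℂ) (l : ℕ → ℂ) (F : Finset ℕ) : Prop :=
  finrank Qbar (sumPeriods V l F) =
    ∑ d ∈ F.biUnion Nat.divisors, finrank Qbar (twists V (top F d))

/-- the linear forms in logarithms in `sumPeriods V l F` are of the form `v + ∑ β_p l_p` with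
`v ∈ V + ⋯ + (2 π i) ^ k V`, algebraic `β_p`, and primes `p` which divide an element of `F` -/
def OnlyObvious (V : Submodule Qbar ℂ) (l : ℕ → ℂ) (k : ℕ) (F : Finset ℕ) : Prop :=
  ∀ z ∈ sumPeriods V l F, z ∈ LogForms → ∃ v ∈ twists V k, v ∈ LogForms ∧
    z - v ∈ Submodule.span Qbar {y | ∃ n ∈ F, ∃ p : ℕ, p.Prime ∧ p ∣ n ∧ y = l p}

/-! ### Elementary facts -/

theorem LogForms_le : LogForms ≤ Lt := by
  refine Submodule.span_le.2 ?_
  rintro z (hz | hz)
  · rw [Set.mem_singleton_iff] at hz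
    rw [hz]
    exact Lt_one
  · exact Lt_log hz

theorem count_eq (B : Set ℕ) (N : ℕ) : count B N = cnt B N := by
  rw [count, cnt, ← Set.ncard_coe_finset]
  congr 1
  ext n
  rw [Finset.mem_coe, mem_upto]
  exact and_comm

theorem in_of {B : Set ℕ} (j : ℕ)
    (h : Tendsto (fun N : ℕ => (cnt (Sk (j + 1) \ B) N : ℝ) / cnt (Sk (j + 1)) N) atTop
      (𝓝 0)) : Tendsto (fun N : ℕ => (count {n | n ∈ B ∧ Om n ≤ j + 1} N : ℝ) /
        count {n | Om n ≤ j + 1} N) atTop (𝓝 1) := by
  refine (dens_one _ _ (Sk_pos (j + 1)) h).congr fun N => ?_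
  rw [count, count, cnt, cnt, ← Set.ncard_coe_finset, ← Set.ncard_coe_finset]
  congr 3
  · ext n
    rw [Finset.mem_coe, mem_upto]
    constructor
    · rintro ⟨h1, h2, h3⟩
      exact ⟨⟨h2, h3.2⟩, h1⟩
    · rintro ⟨⟨h1, h2⟩, h3⟩
      exact ⟨h3, h1, Nat.one_le_iff_ne_zero.1 h3.1, h2⟩
  · ext n
    rw [Finset.mem_coe, mem_upto]
    constructor
    · rintro ⟨h1, h2⟩
      exact ⟨h2.2, h1⟩
    · rintro ⟨h1, h2⟩
      exact ⟨h2, Nat.one_le_iff_ne_zero.1 h2.1, h1⟩

theorem almostAll_of {B : Set ℕ}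
    (h : ∀ k : ℕ, Tendsto (fun N : ℕ => (cnt (Sk (k + 1) \ B) N : ℝ) / cnt (Sk (k + 1)) N) atTop
      (𝓝 0)) : AlmostAll B := by
  intro k hk
  obtain ⟨j, rfl⟩ := Nat.exists_eq_add_of_le' hk
  exact in_of j (h j)

theorem transcendental_tpi : Transcendental Qbar (2 * Real.pi * Complex.I) := by
  intro h
  have halg : Algebra.IsAlgebraic ℚ Qbar := (algebraicClosure.isAlgClosure ℚ ℂ).isAlgebraic
  have h1 : IsAlgebraic ℚ (2 * Real.pi * Complex.I) := h.restrictScalars ℚ
  have h2 : IsAlgebraic ℚ (2 * Complex.I) :=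
    (isAlgebraic_algebraMap (2 : ℚ)).mul Pool.Agent.H340R2.LW.isAlgebraic_I
  have h3 : (Real.pi : ℂ) = 2 * Real.pi * Complex.I * (2 * Complex.I)⁻¹ := by
    field_simp
  exact Pool.Agent.H340R2.LW.transcendental_pi_complex (by rw [h3]; exact h1.mul h2.inv)

theorem lam_prod (l : ℕ → ℂ) (A : Finset ℕ) (hA : ∀ p ∈ A, p.Prime) :
    lam l (∏ p ∈ A, p) = ∏ p ∈ A, l p := by
  classical
  induction A using Finset.induction_on with
  | empty => simp [lam_one]
  | insert p A hp ih =>
    have h1 : ∀ q ∈ A, q.Prime := fun q hq => hA q (Finset.mem_insert_of_mem hq)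
    rw [Finset.prod_insert hp, Finset.prod_insert hp, lam_mul l
      (hA p (Finset.mem_insert_self _ _)).ne_zero (Finset.prod_ne_zero_iff.2 fun q hq => (h1 q hq).ne_zero),
      ih h1, lam_prime l (hA p (Finset.mem_insert_self _ _))]

theorem om_prod (A : Finset ℕ) (hA : ∀ p ∈ A, p.Prime) : Om (∏ p ∈ A, p) = A.card := by
  classical
  induction A using Finset.induction_on with
  | empty => simp [Om]
  | insert p A hp ih =>
    have h1 : ∀ q ∈ A, q.Prime := fun q hq => hA q (Finset.mem_insert_of_mem hq)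
    have hpp := hA p (Finset.mem_insert_self _ _)
    rw [Finset.prod_insert hp, Finset.card_insert_of_notMem hp]
    show ArithmeticFunction.cardFactors _ = _
    rw [ArithmeticFunction.cardFactors_mul hpp.ne_zero
      (Finset.prod_ne_zero_iff.2 fun q hq => (h1 q hq).ne_zero),
      ArithmeticFunction.cardFactors_apply_prime hpp, ← ih h1, Nat.add_comm]

theorem prod_primeFactors {n : ℕ} (hn : Squarefree n) : ∏ p ∈ n.primeFactors, p = n :=
  Nat.prod_primeFactors_of_squarefree hn

theorem om_sqf {n : ℕ} (hn : Squarefree n) : Om n = n.primeFactors.card := by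
  conv_lhs => rw [← prod_primeFactors hn]
  exact om_prod _ fun p hp => Nat.prime_of_mem_primeFactors hp

/-- divisors of squarefree numbers correspond to sets of primes -/
theorem sub_dvd {n : ℕ} (hn : Squarefree n) {A : Finset ℕ} (hA : A ⊆ n.primeFactors) :
    (∏ p ∈ A, p) ∣ n ∧ Om (n / ∏ p ∈ A, p) = n.primeFactors.card - A.card := by
  have h1 : (∏ p ∈ A, p) ∣ n := by
    conv_rhs => rw [← prod_primeFactors hn]
    exact Finset.prod_dvd_prod_of_subset _ _ _ hA
  refine ⟨h1, ?_⟩
  obtain ⟨e, he⟩ := h1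
  have hA' : ∀ p ∈ A, p.Prime := fun p hp => Nat.prime_of_mem_primeFactors (hA hp)
  have h0 : (∏ p ∈ A, p) ≠ 0 := Finset.prod_ne_zero_iff.2 fun q hq => (hA' q hq).ne_zero
  have he0 : e ≠ 0 := by
    rintro rfl
    rw [Nat.mul_zero] at he
    exact hn.ne_zero he
  have h2 : Om n = A.card + Om e := by
    conv_lhs => rw [he]
    show ArithmeticFunction.cardFactors _ = _
    rw [ArithmeticFunction.cardFactors_mul h0 he0]
    exact congrArg (· + _) (om_prod A hA')
  have h3 : n / (∏ p ∈ A, p) = e := by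
    conv_lhs => rw [he]
    exact Nat.mul_div_cancel_left e (Nat.pos_of_ne_zero h0)
  rw [h3, ← om_sqf hn]
  omega

theorem lac_sqf {n : ℕ} (h : Lac (CK 3) ∅ n) : Squarefree n := by
  induction h with
  | one => exact squarefree_one
  | mul a q ha hq hc _ ih =>
    have hpos := Lac.pos ha
    have hlt : a < q := (CK.adm 3).lt hpos hq hc
    refine (Nat.squarefree_mul ?_).2 ⟨ih, hq.squarefree⟩
    exact ((Nat.Prime.coprime_iff_not_dvd hq).2 fun h => by
      have := Nat.le_of_dvd hpos h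
      omega).symm

/-- an entry of the matrix -/
theorem entry (l : ℂ) (i j : Fin 2) (h : ¬ (i = 1 ∧ j = 0)) : kummer l i j =
    (if i = 0 ∧ j = 1 then l else 1) * (if i = 1 ∧ j = 1 then 2 * Real.pi * Complex.I else 1) := by
  fin_cases i <;> fin_cases j <;> simp [kummer] at h ⊢

theorem gen_left {V : Submodule Qbar ℂ} {l : ℕ → ℂ} {n : ℕ} (hn : Squarefree n) {v : ℂ} (hv : v ∈ V)
    (r c : ℕ → Fin 2) : ∃ d, d ∣ n ∧ v * ∏ p ∈ n.primeFactors, kummer (l p) (r p) (c p) ∈
      (twists V (Om (n / d))).map (LinearMap.mulRight Qbar (lam l d)) := by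
  classical
  by_cases h0 : ∃ p ∈ n.primeFactors, r p = 1 ∧ c p = 0
  · obtain ⟨p, hp, hr, hc⟩ := h0
    refine ⟨1, one_dvd n, ?_⟩
    rw [Finset.prod_eq_zero hp (by rw [hr, hc]; simp [kummer]), mul_zero]
    exact Submodule.zero_mem _
  push Not at h0
  let A := n.primeFactors.filter fun p => r p = 0 ∧ c p = 1
  let T := n.primeFactors.filter fun p => r p = 1 ∧ c p = 1
  have hA : A ⊆ n.primeFactors := Finset.filter_subset _ _
  have hT : T ⊆ n.primeFactors := Finset.filter_subset _ _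
  obtain ⟨h1, h2⟩ := sub_dvd hn hA
  have hA' : ∀ p ∈ A, p.Prime := fun p hp => Nat.prime_of_mem_primeFactors (hA hp)
  have hAT : Disjoint A T := by
    rw [Finset.disjoint_left]
    intro p hp hp'
    have e1 := (Finset.mem_filter.1 hp).2.1
    have e2 := (Finset.mem_filter.1 hp').2.1
    rw [e1] at e2
    exact absurd e2 (by decide)
  have h3 : A.card + T.card ≤ n.primeFactors.card := by
    rw [← Finset.card_union_of_disjoint hAT]
    exact Finset.card_le_card (Finset.union_subset hA hT)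
  have h4 : ∏ p ∈ n.primeFactors, kummer (l p) (r p) (c p) =
      (∏ p ∈ A, l p) * (2 * Real.pi * Complex.I) ^ T.card := by
    rw [Finset.prod_congr rfl fun p hp => entry (l p) (r p) (c p) fun h => h0 p hp h.1 h.2,
      Finset.prod_mul_distrib, ← Finset.prod_filter, ← Finset.prod_filter, Finset.prod_const]
  refine ⟨∏ p ∈ A, p, h1, v * (2 * Real.pi * Complex.I) ^ T.card,
    Submodule.subset_span ⟨v, hv, T.card, by omega, rfl⟩, ?_⟩
  rw [LinearMap.mulRight_apply, h4, lam_prod l A hA']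
  ring

theorem gen_right {V : Submodule Qbar ℂ} {l : ℕ → ℂ} {n d : ℕ} (hn : Squarefree n) (hd : d ∣ n)
    {v : ℂ} (hv : v ∈ V) {j : ℕ} (hj : j ≤ Om (n / d)) :
    v * (2 * Real.pi * Complex.I) ^ j * lam l d ∈ periods V l n := by
  classical
  have hd0 : Squarefree d := hn.squarefree_of_dvd hd
  have he0 : Squarefree (n / d) := hn.squarefree_of_dvd (Nat.div_dvd_of_dvd hd)
  have hcop : Nat.Coprime d (n / d) := by
    have h1 : Squarefree (d * (n / d)) := by rw [Nat.mul_div_cancel' hd]; exact hn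
    exact Nat.coprime_of_squarefree_mul h1
  rw [om_sqf he0] at hj
  obtain ⟨T, hT, hTj⟩ := Finset.exists_subset_card_eq hj
  have hTn : T ⊆ n.primeFactors := hT.trans
    (Nat.primeFactors_mono (Nat.div_dvd_of_dvd hd) hn.ne_zero)
  have hAn : d.primeFactors ⊆ n.primeFactors := Nat.primeFactors_mono hd hn.ne_zero
  have hAT : ∀ p ∈ d.primeFactors, p ∉ T := by
    intro p hp hpT
    have h1 := Finset.disjoint_left.1 hcop.disjoint_primeFactors hp
    exact h1 (hT hpT)
  refine Submodule.subset_span ⟨v, hv, fun p => if p ∈ T then 1 else 0,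
    fun p => if p ∈ T ∨ p ∈ d.primeFactors then 1 else 0, ?_⟩
  have h4 : ∏ p ∈ n.primeFactors, kummer (l p) (if p ∈ T then 1 else 0)
      (if p ∈ T ∨ p ∈ d.primeFactors then 1 else 0) =
      (∏ p ∈ d.primeFactors, l p) * (2 * Real.pi * Complex.I) ^ T.card := by
    have h5 : ∀ p ∈ n.primeFactors, kummer (l p) (if p ∈ T then 1 else 0)
        (if p ∈ T ∨ p ∈ d.primeFactors then 1 else 0) = (if p ∈ d.primeFactors then l p else 1) *
          (if p ∈ T then 2 * Real.pi * Complex.I else 1) := by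
      intro p _
      by_cases h1 : p ∈ T
      · have h2 : p ∉ d.primeFactors := fun h => hAT p h h1
        simp [h1, h2, kummer]
      · by_cases h2 : p ∈ d.primeFactors
        · simp [h1, h2, kummer]
        · simp [h1, h2, kummer]
    rw [Finset.prod_congr rfl h5, Finset.prod_mul_distrib, ← Finset.prod_filter,
      ← Finset.prod_filter, Finset.prod_const, Finset.filter_mem_eq_inter,
      Finset.filter_mem_eq_inter, Finset.inter_eq_right.2 hAn, Finset.inter_eq_right.2 hTn]
  have h6 : lam l d = ∏ p ∈ d.primeFactors, l p := by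
    conv_lhs => rw [← prod_primeFactors hd0]
    exact lam_prod l _ fun p hp => Nat.prime_of_mem_primeFactors hp
  rw [h4, h6, hTj]
  ring

theorem iSup_periods (V : Submodule Qbar ℂ) (l : ℕ → ℂ) (F : Finset ℕ)
    (hF : ∀ n ∈ F, Squarefree n) : (⨆ n ∈ F, periods V l n) =
      ⨆ d ∈ F.biUnion Nat.divisors,
        (twists V (top F d)).map (LinearMap.mulRight Qbar (lam l d)) := by
  classical
  refine le_antisymm (iSup₂_le fun n hn => ?_) (iSup₂_le fun d hd => ?_)
  · refine Submodule.span_le.2 ?_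
    rintro z ⟨v, hv, r, c, rfl⟩
    obtain ⟨d, hd, h1⟩ := gen_left (l := l) (hF n hn) hv r c
    have hdD : d ∈ F.biUnion Nat.divisors :=
      Finset.mem_biUnion.2 ⟨n, hn, Nat.mem_divisors.2 ⟨hd, (hF n hn).ne_zero⟩⟩
    refine le_iSup₂ (f := fun d (_ : d ∈ F.biUnion Nat.divisors) =>
      (twists V (top F d)).map (LinearMap.mulRight Qbar (lam l d))) d hdD ?_
    refine Submodule.map_mono ?_ h1
    refine Submodule.span_mono ?_
    rintro z ⟨v, hv, j, hj, rfl⟩
    refine ⟨v, hv, j, hj.trans ?_, rfl⟩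
    exact Finset.le_sup (f := fun n => Om (n / d)) (Finset.mem_filter.2 ⟨hn, hd⟩)
  · obtain ⟨n, hn, hdn⟩ := Finset.mem_biUnion.1 hd
    rw [Nat.mem_divisors] at hdn
    obtain ⟨m, hm, hmt⟩ := Finset.exists_mem_eq_sup (F.filter fun n => d ∣ n)
      ⟨n, Finset.mem_filter.2 ⟨hn, hdn.1⟩⟩ (fun n => Om (n / d))
    obtain ⟨hmF, hdm⟩ := Finset.mem_filter.1 hm
    have h1 : (twists V (top F d)).map (LinearMap.mulRight Qbar (lam l d)) ≤ periods V l m := by
      rw [top, hmt, twists, Submodule.map_span, Submodule.span_le]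
      rintro _ ⟨z, ⟨v, hv, j, hj, rfl⟩, rfl⟩
      exact gen_right (hF m hmF) hdm hv hj
    exact h1.trans (le_iSup₂ (f := fun n (_ : n ∈ F) => periods V l n) m hmF)

/-! ### Dimensions -/

theorem iSup_map_range (D : Finset ℕ) (U : ℕ → Submodule Qbar ℂ) (x : ℕ → ℂ) :
    LinearMap.range (∑ d : D, (((LinearMap.mulRight Qbar (x d)).comp (U d).subtype).comp
      (LinearMap.proj d : (∀ d : D, U d) →ₗ[Qbar] U d))) =
      ⨆ d ∈ D, (U d).map (LinearMap.mulRight Qbar (x d)) := by
  classical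
  refine le_antisymm ?_ (iSup₂_le fun d hd => ?_)
  · rintro _ ⟨u, rfl⟩
    rw [LinearMap.sum_apply]
    refine Submodule.sum_mem _ fun d _ => ?_
    exact Submodule.mem_iSup_of_mem (d : ℕ) (Submodule.mem_iSup_of_mem d.2
      ⟨(u d : ℂ), (u d).2, rfl⟩)
  · rintro _ ⟨w, hw, rfl⟩
    refine ⟨Pi.single (⟨d, hd⟩ : D) (⟨w, hw⟩ : U d), ?_⟩
    rw [LinearMap.sum_apply, Finset.sum_eq_single_of_mem (⟨d, hd⟩ : D) (Finset.mem_univ _)]
    · simp
    · intro e _ he
      simp [Pi.single_eq_of_ne he]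

theorem finrank_iSup (D : Finset ℕ) (U : ℕ → Submodule Qbar ℂ) (x : ℕ → ℂ)
    (hU : ∀ d ∈ D, FiniteDimensional Qbar (U d))
    (hind : ∀ u : ℕ → ℂ, (∀ d ∈ D, u d ∈ U d) → ∑ d ∈ D, u d * x d = 0 → ∀ d ∈ D, u d = 0) :
    finrank Qbar ↥(⨆ d ∈ D, (U d).map (LinearMap.mulRight Qbar (x d))) =
      ∑ d ∈ D, finrank Qbar (U d) := by
  classical
  have hfin : ∀ d : D, FiniteDimensional Qbar (U d) := fun d => hU d d.2
  rw [← iSup_map_range, LinearMap.finrank_range_of_inj, Module.finrank_pi_fintype]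
  · exact Finset.sum_coe_sort D fun d => finrank Qbar (U d)
  · rw [← LinearMap.ker_eq_bot, LinearMap.ker_eq_bot']
    intro u hu
    let u' : ℕ → ℂ := fun d => if h : d ∈ D then (u ⟨d, h⟩ : ℂ) else 0
    have h1 : ∀ d : D, u' d = u d := fun d => by simp only [u', dif_pos d.2]
    have h2 := hind u' (fun d hd => by
      rw [h1 ⟨d, hd⟩]
      exact (u ⟨d, hd⟩).2) (by
      rw [← Finset.sum_coe_sort D fun d => u' d * x d, ← hu, LinearMap.sum_apply]
      refine Finset.sum_congr rfl fun d _ => ?_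
      rw [h1]
      rfl)
    ext d
    rw [← h1]
    exact h2 d d.2

theorem twists_le (V : Submodule Qbar ℂ) (m : ℕ) : twists V m ≤
    (Finset.range (m + 1)).sup fun j =>
      V.map (LinearMap.mulRight Qbar ((2 * Real.pi * Complex.I) ^ j)) := by
  refine Submodule.span_le.2 ?_
  rintro z ⟨v, hv, j, hj, rfl⟩
  exact Finset.le_sup (f := fun j =>
      V.map (LinearMap.mulRight Qbar ((2 * Real.pi * Complex.I : ℂ) ^ j)))
    (Finset.mem_range.2 (Nat.lt_succ_of_le hj)) ⟨v, hv, rfl⟩

theorem twists_fin (V : Submodule Qbar ℂ) [FiniteDimensional Qbar V] (m : ℕ) :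
    FiniteDimensional Qbar (twists V m) :=
  Submodule.finiteDimensional_of_le (twists_le V m)

theorem twists_mono (V : Submodule Qbar ℂ) {m m' : ℕ} (h : m ≤ m') : twists V m ≤ twists V m' := by
  refine Submodule.span_mono ?_
  rintro z ⟨v, hv, j, hj, rfl⟩
  exact ⟨v, hv, j, hj.trans h, rfl⟩

theorem om_div_le {n d : ℕ} (hn : n ≠ 0) (hd : d ∣ n) : Om (n / d) ≤ Om n := by
  obtain ⟨e, rfl⟩ := hd
  have hd0 : d ≠ 0 := left_ne_zero_of_mul hn
  have he0 : e ≠ 0 := right_ne_zero_of_mul hn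
  rw [Nat.mul_div_cancel_left e (Nat.pos_of_ne_zero hd0)]
  show ArithmeticFunction.cardFactors e ≤ ArithmeticFunction.cardFactors (d * e)
  rw [ArithmeticFunction.cardFactors_mul hd0 he0]
  omega

theorem top_le {F : Finset ℕ} {k : ℕ} (hF : ∀ n ∈ F, n ≠ 0 ∧ Om n ≤ k) (d : ℕ) : top F d ≤ k := by
  refine Finset.sup_le fun n hn => ?_
  obtain ⟨h1, h2⟩ := Finset.mem_filter.1 hn
  exact (om_div_le (hF n h1).1 h2).trans (hF n h1).2

/-- the spaces of the sequence -/
noncomputable def WW (w : ℕ → ℂ) (m : ℕ) : Submodule Qbar ℂ := Submodule.span Qbar (w '' Set.Iic m)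

theorem WW_mono (w : ℕ → ℂ) {m m' : ℕ} (h : m ≤ m') : WW w m ≤ WW w m' :=
  Submodule.span_mono (Set.image_mono (Set.Iic_subset_Iic.2 h))

theorem mem_WW (w : ℕ → ℂ) {z : ℂ} (hz : z ∈ Submodule.span Qbar (Set.range w)) :
    ∃ m, z ∈ WW w m := by
  induction hz using Submodule.span_induction with
  | mem z hz =>
    obtain ⟨i, rfl⟩ := hz
    exact ⟨i, Submodule.subset_span ⟨i, Set.mem_Iic.2 le_rfl, rfl⟩⟩
  | zero => exact ⟨0, Submodule.zero_mem _⟩
  | add x y _ _ hx hy =>
    obtain ⟨m, hm⟩ := hx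
    obtain ⟨m', hm'⟩ := hy
    exact ⟨max m m', Submodule.add_mem _ (WW_mono w (le_max_left _ _) hm)
      (WW_mono w (le_max_right _ _) hm')⟩
  | smul c x _ hx =>
    obtain ⟨m, hm⟩ := hx
    exact ⟨m, Submodule.smul_mem _ c hm⟩

theorem le_WW (w : ℕ → ℂ) (U : Submodule Qbar ℂ) [FiniteDimensional Qbar U]
    (hU : U ≤ Submodule.span Qbar (Set.range w)) : ∃ m, U ≤ WW w m := by
  classical
  obtain ⟨t, ht⟩ := (Submodule.fg_iff_finiteDimensional U).2 inferInstance
  have h1 : ∀ x : t, ∃ m, (x : ℂ) ∈ WW w m := fun x => mem_WW w (hU (by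
    rw [← ht]
    exact Submodule.subset_span x.2))
  choose m hm using h1
  refine ⟨Finset.univ.sup m, ?_⟩
  rw [← ht, Submodule.span_le]
  intro x hx
  exact WW_mono w (Finset.le_sup (Finset.mem_univ (⟨x, hx⟩ : t))) (hm ⟨x, hx⟩)

/-- an enumeration of the periods and their products with powers of `2 π i` -/
theorem exists_enum (P : Set ℂ) (hP : P.Countable) : ∃ w : ℕ → ℂ, ∀ V : Submodule Qbar ℂ,
    V ≤ Submodule.span Qbar P → ∀ m, twists V m ≤ Submodule.span Qbar (Set.range w) := by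
  have hc : (insert 0 ((fun x : ℂ × ℕ => x.1 * (2 * Real.pi * Complex.I) ^ x.2) ''
      (P ×ˢ Set.univ))).Countable :=
    ((hP.prod Set.countable_univ).image _).insert 0
  obtain ⟨w, hw⟩ := hc.exists_eq_range ⟨0, Set.mem_insert _ _⟩
  refine ⟨w, fun V hV m => ?_⟩
  rw [← hw]
  refine Submodule.span_le.2 ?_
  rintro z ⟨v, hv, j, _, rfl⟩
  have h1 : ∀ v ∈ Submodule.span Qbar P, v * (2 * Real.pi * Complex.I) ^ j ∈
      Submodule.span Qbar (insert 0 ((fun x : ℂ × ℕ => x.1 * (2 * Real.pi * Complex.I) ^ x.2) ''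
        (P ×ˢ Set.univ))) := by
    intro v hv
    induction hv using Submodule.span_induction with
    | mem v hv =>
      exact Submodule.subset_span (Set.mem_insert_of_mem _ ⟨(v, j), ⟨hv, Set.mem_univ _⟩, rfl⟩)
    | zero => rw [zero_mul]; exact Submodule.zero_mem _
    | add x y _ _ hx hy => rw [add_mul]; exact Submodule.add_mem _ hx hy
    | smul c x _ hx => rw [smul_mul_assoc]; exact Submodule.smul_mem _ c hx
  exact h1 v (hV hv)

theorem twists_one (m : ℕ) : finrank Qbar (twists (Submodule.span Qbar {1}) m) = m + 1 := by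
  have h1 : twists (Submodule.span Qbar {1}) m =
      Submodule.span Qbar (Set.range fun j : Fin (m + 1) =>
        (2 * Real.pi * Complex.I : ℂ) ^ (j : ℕ)) := by
    refine le_antisymm (Submodule.span_le.2 ?_) (Submodule.span_le.2 ?_)
    · rintro z ⟨v, hv, j, hj, rfl⟩
      obtain ⟨c, rfl⟩ := Submodule.mem_span_singleton.1 hv
      rw [smul_mul_assoc, one_mul]
      exact Submodule.smul_mem _ c (Submodule.subset_span ⟨⟨j, Nat.lt_succ_of_le hj⟩, rfl⟩)
    · rintro _ ⟨j, rfl⟩
      exact Submodule.subset_span ⟨1, Submodule.mem_span_singleton_self 1, j,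
        Nat.le_of_lt_succ j.2, (one_mul _).symm⟩
  have h2 : LinearIndependent Qbar (fun j : Fin (m + 1) =>
      (2 * Real.pi * Complex.I : ℂ) ^ (j : ℕ)) := by
    rw [Fintype.linearIndependent_iff]
    intro g hg
    let Q : Polynomial Qbar := ∑ i, Polynomial.C (g i) * Polynomial.X ^ (i : ℕ)
    have hQ : Polynomial.aeval (2 * Real.pi * Complex.I : ℂ) Q = 0 := by
      simp only [Q, map_sum, map_mul, Polynomial.aeval_C, map_pow, Polynomial.aeval_X]
      rw [← hg]
      refine Finset.sum_congr rfl fun i _ => ?_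
      rw [Algebra.smul_def]
    have hQ0 : Q = 0 := by
      by_contra h
      exact transcendental_tpi ⟨Q, h, hQ⟩
    intro i
    have h3 : Q.coeff (i : ℕ) = g i := by
      simp only [Q, Polynomial.finsetSum_coeff, Polynomial.coeff_C_mul_X_pow]
      rw [Finset.sum_eq_single_of_mem i (Finset.mem_univ _)]
      · rw [if_pos rfl]
      · intro j _ hj
        rw [if_neg fun h => hj (Fin.ext h.symm)]
    rw [← h3, hQ0, Polynomial.coeff_zero]
  rw [h1, finrank_span_eq_card h2, Fintype.card_fin]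

theorem sum_divisors_om {n : ℕ} (hn : Squarefree n) :
    2 * ∑ d ∈ n.divisors, (Om (n / d) + 1) = (Om n + 2) * 2 ^ Om n := by
  have hcard : n.divisors.card = 2 ^ Om n := by
    rw [Nat.card_divisors hn.ne_zero, om_sqf hn, ← Finset.prod_const]
    refine Finset.prod_congr rfl fun p hp => ?_
    rw [Nat.mem_primeFactors] at hp
    have h1 := (Nat.squarefree_iff_factorization_le_one hn.ne_zero).1 hn p
    have h2 := hp.1.factorization_pos_of_dvd hn.ne_zero hp.2.1
    omega
  have h1 : ∑ d ∈ n.divisors, Om (n / d) = ∑ d ∈ n.divisors, Om d :=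
    Nat.sum_div_divisors n fun d => Om d
  have h2 : ∑ d ∈ n.divisors, (Om d + Om (n / d)) = 2 ^ Om n * Om n := by
    rw [← hcard, ← smul_eq_mul, ← Finset.sum_const]
    refine Finset.sum_congr rfl fun d hd => ?_
    obtain ⟨e, rfl⟩ := (Nat.mem_divisors.1 hd).1
    have hd0 : d ≠ 0 := left_ne_zero_of_mul hn.ne_zero
    have he0 : e ≠ 0 := right_ne_zero_of_mul hn.ne_zero
    rw [Nat.mul_div_cancel_left e (Nat.pos_of_ne_zero hd0)]
    exact (ArithmeticFunction.cardFactors_mul hd0 he0).symm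
  rw [Finset.sum_add_distrib] at h2
  rw [Finset.sum_add_distrib, Finset.sum_const, smul_eq_mul, mul_one, hcard]
  nlinarith

theorem top_singleton {n d : ℕ} (hd : d ∣ n) : top {n} d = Om (n / d) := by
  rw [top, Finset.filter_singleton, if_pos hd, Finset.sup_singleton]

/-- the rough integers have density one -/
theorem rough_dens (n₀ j : ℕ) : Tendsto (fun N : ℕ =>
    (cnt (Sk (j + 1) \ {n | ∀ p : ℕ, p.Prime → p ∣ n → n₀ ≤ p}) N : ℝ) / cnt (Sk (j + 1)) N)
      atTop (𝓝 0) := by
  classical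
  let X : Set ℕ := {x | 2 ≤ x ∧ x < n₀}
  have hX : ∀ N : ℕ, (cnt X N : ℝ) ≤ (n₀ : ℝ) * (N : ℝ) ^ (1 / 2 : ℝ) := by
    intro N
    rcases Nat.eq_zero_or_pos N with rfl | hN
    · have h0 : cnt X 0 = 0 := by
        rw [cnt, Finset.card_eq_zero, Finset.eq_empty_iff_forall_notMem]
        intro a ha
        have := (mem_upto.1 ha).1
        omega
      rw [h0, Nat.cast_zero]
      positivity
    have h1 : cnt X N ≤ n₀ := by
      rw [cnt]
      refine (Finset.card_le_card (t := Finset.range n₀) fun a ha => ?_).trans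
        (Finset.card_range n₀).le
      exact Finset.mem_range.2 (mem_upto.1 ha).2.2
    have h2 : (1 : ℝ) ≤ (N : ℝ) ^ (1 / 2 : ℝ) :=
      Real.one_le_rpow (by exact_mod_cast hN) (by norm_num)
    have h3 : (cnt X N : ℝ) ≤ n₀ := by exact_mod_cast h1
    have h4 : (0 : ℝ) ≤ n₀ := Nat.cast_nonneg _
    nlinarith
  have h1 := ld_CK 3 (by norm_num) X n₀ (1 / 2) (Nat.cast_nonneg _) (by norm_num) (by norm_num) hX
    (j + 1) (Nat.succ_pos j)
  refine squeeze_zero (fun N => by positivity) (fun N => ?_) h1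
  refine div_le_div_of_nonneg_right ?_ (Nat.cast_nonneg _)
  have h2 : cnt (Sk (j + 1) \ {n | ∀ p : ℕ, p.Prime → p ∣ n → n₀ ≤ p}) N ≤
      cnt (Sk (j + 1) \ LD (CK 3) X) N := by
    have h3 : Sk (j + 1) \ {n | ∀ p : ℕ, p.Prime → p ∣ n → n₀ ≤ p} ⊆ Sk (j + 1) \ LD (CK 3) X := by
      intro n hn
      refine ⟨hn.1, fun h => hn.2 fun p hp hpn => ?_⟩
      by_contra hlt
      exact hp.one_lt.ne' (h.2 p ⟨hp.two_le, not_le.1 hlt⟩ hpn)
    exact cnt_le h3 N
  exact_mod_cast h2

/-- intersections -/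
theorem inter_dens {S A B : Set ℕ} (j : ℕ)
    (hA : Tendsto (fun N : ℕ => (cnt (Sk (j + 1) \ A) N : ℝ) / cnt (Sk (j + 1)) N) atTop (𝓝 0))
    (hB : Tendsto (fun N : ℕ => (cnt (Sk (j + 1) \ B) N : ℝ) / cnt (Sk (j + 1)) N) atTop (𝓝 0))
    (hS : ∀ n ∈ Sk (j + 1), n ∈ A → n ∈ B → n ∈ S) :
    Tendsto (fun N : ℕ => (cnt (Sk (j + 1) \ S) N : ℝ) / cnt (Sk (j + 1)) N) atTop (𝓝 0) := by
  classical
  have h1 := hA.add hB
  rw [add_zero] at h1
  refine squeeze_zero (fun N => by positivity) (fun N => ?_) h1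
  rw [← add_div]
  refine div_le_div_of_nonneg_right ?_ (Nat.cast_nonneg _)
  have h2 : upto (Sk (j + 1) \ S) N ⊆ upto (Sk (j + 1) \ A) N ∪ upto (Sk (j + 1) \ B) N := by
    intro n hn
    rw [mem_upto] at hn
    rw [Finset.mem_union, mem_upto, mem_upto]
    by_cases hnA : n ∈ A
    · right
      exact ⟨hn.1, hn.2.1, fun hnB => hn.2.2 (hS n hn.2.1 hnA hnB)⟩
    · left
      exact ⟨hn.1, hn.2.1, hnA⟩
  have h3 := (Finset.card_le_card h2).trans (Finset.card_union_le _ _)
  unfold cnt
  exact_mod_cast h3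

/-- the uniform statement, together with the density in the form used below -/
theorem uniform (l : ℕ → ℂ) (hl : ∀ p : ℕ, p.Prime → Alg (Complex.exp (l p)))
    (hli : LinearIndependent ℚ (fun p : Nat.Primes => l p)) (P : Set ℂ) (hP : P.Countable) :
    ∃ B : Set ℕ, DivisorClosed B ∧
      (∀ j : ℕ, Tendsto (fun N : ℕ => (cnt (Sk (j + 1) \ B) N : ℝ) / cnt (Sk (j + 1)) N) atTop
        (𝓝 0)) ∧ (∀ n ∈ B, Squarefree n) ∧
      ∀ V : Submodule Qbar ℂ, V ≤ Submodule.span Qbar P → FiniteDimensional Qbar V → ∀ k : ℕ,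
        ∃ n₀ : ℕ, ∀ F : Finset ℕ, Admissible B k n₀ F → Formula V l F ∧ OnlyObvious V l k F := by
  classical
  have hG := goodC l hl hli
  obtain ⟨w, hw⟩ := exists_enum P hP
  have hWf : ∀ m, FiniteDimensional (QC ℂ) (WW w m) := fun m =>
    FiniteDimensional.span_of_finite _ ((Set.finite_Iic m).image _)
  obtain ⟨B, M, hM, hB1, hB2, hB3, hB4, hB5, hB6⟩ := mainB hG (WW w) hWf
  refine ⟨B, ⟨hB1, fun n hn => ⟨Lac.pos (hB2 n hn), hB3 n hn⟩⟩, hB4,
    fun n hn => lac_sqf (hB2 n hn), fun V hV hVf k => ?_⟩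
  have hTf := twists_fin V k
  obtain ⟨m, hm⟩ := le_WW w (twists V k) (hw V hV k)
  refine ⟨M m, fun F hF => ?_⟩
  have hFs : ∀ n ∈ F, Squarefree n := fun n hn => lac_sqf (hB2 n (hF n hn).1)
  have hFk : ∀ n ∈ F, n ≠ 0 ∧ Om n ≤ k := fun n hn => ⟨(hFs n hn).ne_zero, (hF n hn).2.1⟩
  obtain ⟨D, hD⟩ : ∃ D, D = F.biUnion Nat.divisors := ⟨_, rfl⟩
  have hDB : ∀ d ∈ D, d ∈ B := by
    intro d hd
    obtain ⟨n, hn, hdn⟩ := Finset.mem_biUnion.1 (hD ▸ hd)
    exact hB3 n (hF n hn).1 d (Nat.dvd_of_mem_divisors hdn)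
  have hDM : ∀ d ∈ D, d ≠ 1 → M m ≤ d := by
    intro d hd hd1
    obtain ⟨n, hn, hdn⟩ := Finset.mem_biUnion.1 (hD ▸ hd)
    have h1 := (hF n hn).2.2 d.minFac (Nat.minFac_prime hd1)
      ((Nat.minFac_dvd d).trans (Nat.dvd_of_mem_divisors hdn))
    exact h1.trans (Nat.minFac_le (Lac.pos (hB2 d (hDB d hd))))
  have hsub : ∀ d, twists V (top F d) ≤ V1 (WW w m) := fun d =>
    ((twists_mono V (top_le hFk d)).trans hm).trans le_sup_left
  refine ⟨?_, fun z hz hzL => ?_⟩
  · rw [Formula, sumPeriods, iSup_periods V l F hFs, ← hD]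
    refine finrank_iSup D (fun d => twists V (top F d)) (lam l) (fun d _ => twists_fin V _)
      fun u hu h0 => ?_
    exact rel0 (V := fun m => V1 (WW w m)) hB2 hB5 D hDB u
      (fun n hn hn1 _ => ⟨m, hDM n hn hn1, fun b hb _ => hsub b (hu b hb)⟩) h0
  · rw [sumPeriods, iSup_periods V l F hFs, ← hD, ← iSup_map_range] at hz
    obtain ⟨x, rfl⟩ := hz
    let u : ℕ → ℂ := fun d => if h : d ∈ D then (x ⟨d, h⟩ : ℂ) else 0
    have hux : ∀ d : D, u d = x d := fun d => by simp only [u, dif_pos d.2]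
    have hu : ∀ d ∈ D, u d ∈ twists V (top F d) := fun d hd => by
      rw [hux ⟨d, hd⟩]
      exact (x ⟨d, hd⟩).2
    have hsum : (∑ d : D, ((LinearMap.mulRight Qbar (lam l d)).comp
        (twists V (top F d)).subtype).comp (LinearMap.proj d)) x = ∑ d ∈ D, u d * lam l d := by
      rw [← Finset.sum_coe_sort D fun d => u d * lam l d, LinearMap.sum_apply]
      refine Finset.sum_congr rfl fun d _ => ?_
      rw [hux]
      rfl
    rw [hsum] at hzL ⊢
    have h1 := relM hG (V := fun m => V1 (WW w m)) hB2 hB6 D hDB u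
      (fun n hn hn1 _ => ⟨m, hDM n hn hn1, fun b hb _ => hsub b (hu b hb)⟩) hzL
    -- the terms with `d ≠ 1`
    have h2 : ∑ d ∈ D.erase 1, u d * lam l d ∈
        Submodule.span Qbar {y | ∃ n ∈ F, ∃ p : ℕ, p.Prime ∧ p ∣ n ∧ y = l p} := by
      refine Submodule.sum_mem _ fun d hd => ?_
      obtain ⟨hd1, hdD⟩ := Finset.mem_erase.1 hd
      obtain ⟨h3, h4⟩ := h1 d hdD hd1
      have hpos := Lac.pos (hB2 d (hDB d hdD))
      by_cases h5 : 2 ≤ ArithmeticFunction.cardFactors d
      · rw [h4 h5, zero_mul]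
        exact Submodule.zero_mem _
      · have h6 : d.Prime := by
          rw [← ArithmeticFunction.cardFactors_eq_one_iff_prime]
          have h7 : ArithmeticFunction.cardFactors d ≠ 0 := fun h7 => by
            rw [ArithmeticFunction.cardFactors_eq_zero_iff_eq_zero_or_one] at h7
            omega
          omega
        obtain ⟨c, hc⟩ := Submodule.mem_span_singleton.1 h3
        obtain ⟨n, hn, hdn⟩ := Finset.mem_biUnion.1 (hD ▸ hdD)
        rw [← hc, smul_mul_assoc, one_mul, lam_prime l h6]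
        exact Submodule.smul_mem _ c (Submodule.subset_span
          ⟨n, hn, d, h6, Nat.dvd_of_mem_divisors hdn, rfl⟩)
    have h3 : Submodule.span Qbar {y | ∃ n ∈ F, ∃ p : ℕ, p.Prime ∧ p ∣ n ∧ y = l p} ≤ LogForms := by
      refine Submodule.span_le.2 ?_
      rintro _ ⟨n, _, p, hp, _, rfl⟩
      exact Submodule.subset_span (Or.inr (hl p hp))
    refine ⟨∑ d ∈ D, u d * lam l d - ∑ d ∈ D.erase 1, u d * lam l d, ?_,
      Submodule.sub_mem _ hzL (h3 h2), ?_⟩
    · by_cases h4 : 1 ∈ D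
      · rw [← Finset.add_sum_erase D _ h4, add_sub_cancel_right, lam_one, mul_one]
        exact twists_mono V (top_le hFk 1) (hu 1 h4)
      · rw [Finset.erase_eq_of_notMem h4, sub_self]
        exact Submodule.zero_mem _
    · rw [sub_sub_cancel]
      exact h2

/-- almost all integers are generic -/
theorem generic_dens (l : ℕ → ℂ) (hl : ∀ p : ℕ, p.Prime → Alg (Complex.exp (l p)))
    (hli : LinearIndependent ℚ (fun p : Nat.Primes => l p)) (V : Submodule Qbar ℂ)
    (hV : FiniteDimensional Qbar V) (j : ℕ) :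
    Tendsto (fun N : ℕ => (cnt (Sk (j + 1) \ {n | Generic V l n}) N : ℝ) / cnt (Sk (j + 1)) N) atTop
      (𝓝 0) := by
  classical
  obtain ⟨t, ht⟩ := (Submodule.fg_iff_finiteDimensional V).2 hV
  obtain ⟨B, hB1, hB2, hB3, hB4⟩ := uniform l hl hli (t : Set ℂ) t.countable_toSet
  obtain ⟨n₀, hn₀⟩ := hB4 V ht.ge hV (j + 1)
  refine inter_dens j (hB2 j) (rough_dens n₀ j) fun n hn hnB hnR => ?_
  refine ⟨hB3 n hnB, ?_⟩
  have h1 := (hn₀ {n} fun m hm => by
    rw [Finset.mem_singleton] at hm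
    rw [hm]
    exact ⟨hnB, hn.2, hnR⟩).1
  have h2 : sumPeriods V l {n} = periods V l n := by
    simp [sumPeriods]
  rw [Formula, h2, Finset.singleton_biUnion] at h1
  rw [h1]
  exact Finset.sum_congr rfl fun d hd => by rw [top_singleton (Nat.dvd_of_mem_divisors hd)]

/-- **Main result.** -/
theorem result (l : ℕ → ℂ) (hl : ∀ p : ℕ, p.Prime → Alg (Complex.exp (l p)))
    (hli : LinearIndependent ℚ (fun p : Nat.Primes => l p)) :
    -- (1) the motives `K(α_{p_1}) ⊗ ⋯ ⊗ K(α_{p_k})`
    AlmostAll {n | GenericOne l n} ∧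
    -- (2) tensor products with an arbitrary motive
    (∀ V : Submodule Qbar ℂ, FiniteDimensional Qbar V → AlmostAll {n | Generic V l n}) ∧
    -- (3) one set for all motives, and direct sums
    (∀ P : Set ℂ, P.Countable → ∃ B : Set ℕ, DivisorClosed B ∧ AlmostAll B ∧
      ∀ V : Submodule Qbar ℂ, V ≤ Submodule.span Qbar P → FiniteDimensional Qbar V → ∀ k : ℕ,
        ∃ n₀ : ℕ, ∀ F : Finset ℕ, Admissible B k n₀ F → Formula V l F ∧ OnlyObvious V l k F) := by
  classical
  refine ⟨almostAll_of fun j => ?_, fun V hV => almostAll_of fun j => generic_dens l hl hli V hV j,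
    fun P hP => ?_⟩
  · have hV : FiniteDimensional Qbar (Submodule.span Qbar {(1 : ℂ)}) :=
      FiniteDimensional.span_of_finite _ (Set.finite_singleton 1)
    have h1 := generic_dens l hl hli _ hV j
    refine inter_dens j h1 h1 fun n _ hn _ => ⟨hn.1, ?_⟩
    rw [hn.2, ← sum_divisors_om hn.1]
    congr 1
    exact Finset.sum_congr rfl fun d _ => twists_one _
  · obtain ⟨B, hB1, hB2, _, hB4⟩ := uniform l hl hli P hP
    exact ⟨B, hB1, almostAll_of hB2, hB4⟩

end Pool.Agent.Results.MP_5d33ca_ag.KummerTensors
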