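import Pool.Agent.Q189.HL.Fin2

/-!
# Near relations between the periods of the fundamental groups of punctured lines come from the shuffle relations

Let `a_1, …, a_r` be distinct nonzero integers. The fundamental groupoid of `ℙ¹ ∖ {0, 1 / a_1, …, 1 / a_r, ∞}` (unipotent,
from the tangential base point at `0` to the point `y = 1 / x`) is a mixed Tate motive. Up to `2πi`, its periods are the
polynomials in `log x` and in the hyperlogarithms `L_w(y)`, the iterated integrals from `0` to `y` of words in the forms
`dy / y` and `dy / (1 - a_i y)`; the last form is not `dy / y` (all other words are expressed by these and `log y`). The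
products of hyperlogarithms of the same point are sums of hyperlogarithms, by the shuffle relations. Hence every
polynomial in these periods at points `1 / x_1, …, 1 / x_k` is a linear combination of the products
`∏_j (log x_j) ^ (e_j) L_(w_j)(1 / x_j)`. Grothendieck's conjecture predicts that there are no other relations for general
algebraic points.

The theorem says that this holds for relations and near relations, with coefficients of arbitrary height and with
arbitrary constants. Let `x_1, …, x_k` be algebraic integers of degree at most `m`, with conjugates at most `T`. Outside a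
set of tuples of density `O(T ^ (-c))` there is, for all linear forms `Λ` in the products with `e_j ≤ W` and words of
length at most `W`, the coefficients of which are polynomials of degree at most `d` and height at most `H` in the `x_j` and
in arbitrary complex numbers `ζ_1, …, ζ_g` (for example `2πi`, multiple zeta values or the periods of any other motives),

* (transfer) the bound `|P_b(ζ, x)| ≤ H ^ B |Λ|` for all the coefficients of `Λ`: if the form is small, then all of its
  coefficients are small;
* (measure) the lower bound `|Λ| ≥ H ^ (-B)`, if the coefficients are polynomials in the `x_j` only and do not all vanish.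

The exponent `B` depends on the `a_i` and on `W, g, d, m` only. The bounds hold for all `H` in a long interval from `H₁`
to `H₁ ^ exp (T ^ c)`, for any sufficiently large `H₁`; and, with one exceptional set of tuples for all `H`, for a set
of `H` of upper density at least `1 - T ^ (-c)` on the doubly logarithmic scale, in particular for arbitrarily large
`H`. They hold for all determinations of the logarithms with absolute value at most `H`. The points may be taken on
different punctured lines.

Proof. (1) `Pool.Agent.Q189.MF`: the machine of helper246 (`Pool.Agent.Q246.LN`) for connected families of G-functions, in a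
version for a different family at each point. (2) `Pool.Agent.Q189.HL`: the entries of the holomorphic part of the
fundamental matrix are G-functions, and lie in the space spanned by the hyperlogarithms. (3) The hyperlogarithms are
linearly independent over the rational functions, and the shuffle relations make them a free module with derivations.
A quotient of two elements which is algebraic over the rational functions is a rational function: the family is
connected. (4) All functional relations between the entries hold, after specialisation of the coefficients, for the values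
at any point; the values at different points span the whole space, which separates the coefficients of `Λ`.
-/

set_option autoImplicit false

open PowerSeries

namespace Pool.Agent.Results.MP_5d33ca_ag.NearRelationsMixedTate

/-- The coefficients of the hyperlogarithm of a word, that is of the iterated integral from `0` of the forms `dy / y` (for
the letter `none`) and `dy / (1 - a_i y)` (for the letter `some i`); the first letter is the outermost integration. -/
noncomputable def co {r : ℕ} (a : Fin r → ℤ) : List (Option (Fin r)) → ℕ → ℚ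
  | [], m => if m = 0 then 1 else 0
  | none :: w, m => co a w m / m
  | some i :: w, m => (∑ l ∈ Finset.range m, (a i : ℚ) ^ (m - 1 - l) * co a w l) / m

/-- the hyperlogarithm of a word -/
noncomputable def L {r : ℕ} (a : Fin r → ℤ) (w : List (Option (Fin r))) (y : ℂ) : ℂ := ∑' m : ℕ, (co a w m : ℂ) * y ^ m

/-- the shuffles of two words -/
def shuffles {A : Type} : List A → List A → List (List A)
  | [], v => [v]
  | a :: u, [] => [a :: u]
  | a :: u, b :: v => (shuffles u (b :: v)).map (fun w => a :: w) ++ (shuffles (a :: u) v).map (fun w => b :: w)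
  termination_by u v => u.length + v.length

/-- the words of length at most `W` whose last letter is not `none` -/
abbrev Word (r W : ℕ) : Type := {w : List (Option (Fin r)) // w.length ≤ W ∧ w.getLast? ≠ some none}

/-- there are finitely many words -/
noncomputable instance (r W : ℕ) : Fintype (Word r W) := inferInstanceAs (Fintype (Pool.Agent.Y119.ML.WI r W))

/-- the indices: for every point an exponent of the logarithm and a word -/
abbrev Idx {k : ℕ} (r : Fin k → ℕ) (W : ℕ) : Type := ∀ j, Fin (W + 1) × Word (r j) W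

/-- the product `∏_j ℓ_j ^ (e_j) L_(w_j)(1 / x_j)` -/
noncomputable def prod {k : ℕ} {r : Fin k → ℕ} (a : ∀ j, Fin (r j) → ℤ) {W : ℕ} (x ℓ : Fin k → ℂ) (b : Idx r W) : ℂ :=
  ∏ j, (ℓ j ^ ((b j).1 : ℕ) * L (a j) (b j).2 (1 / x j))

/-- the algebraic integers of degree at most `m` all of whose conjugates have absolute value at most `T` -/
def Ints (m T : ℕ) : Set ℂ :=
  {α | IsIntegral ℤ α ∧ (minpoly ℚ α).natDegree ≤ m ∧ ∀ z : ℂ, Polynomial.aeval z (minpoly ℚ α) = 0 → ‖z‖ ≤ T}

/-- The two inequalities at the height `H`, for all determinations `ℓ_j` of `log x_j` with `|ℓ_j| ≤ H`: the measure for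
forms with the coefficients `P_b(x)`, and the transfer for forms with the coefficients `P_b(ζ, x)`. -/
def Good {k g : ℕ} {r : Fin k → ℕ} (a : ∀ j, Fin (r j) → ℤ) (W d B : ℕ) (ζ : Fin g → ℂ) (x : Fin k → ℂ) (H : ℝ) : Prop :=
  ∀ ℓ : Fin k → ℂ, (∀ j, Complex.exp (ℓ j) = x j) → (∀ j, ‖ℓ j‖ ≤ H) →
    (∀ P : Idx r W → MvPolynomial (Fin k) ℤ, (∀ b, (P b).totalDegree ≤ d) → (∀ b e, |(((P b).coeff e : ℤ) : ℝ)| ≤ H) →
      (∃ b, MvPolynomial.aeval x (P b) ≠ 0) →
      1 ≤ H ^ B * ‖∑ b, MvPolynomial.aeval x (P b) * prod a x ℓ b‖) ∧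
    ∀ P : Idx r W → MvPolynomial (Fin g ⊕ Fin k) ℤ, (∀ b, (P b).totalDegree ≤ d) →
      (∀ b e, |(((P b).coeff e : ℤ) : ℝ)| ≤ H) → ∀ b,
      ‖MvPolynomial.aeval (Sum.elim ζ x) (P b)‖ ≤
        H ^ B * ‖∑ b, MvPolynomial.aeval (Sum.elim ζ x) (P b) * prod a x ℓ b‖

theorem co_eq {r : ℕ} (a : Fin r → ℤ) (w : List (Option (Fin r))) (m : ℕ) :
    co a w m = coeff m (Pool.Agent.Y119.ML.LL a 0 w) := by
  induction w generalizing m with
  | nil =>
    show _ = coeff m (1 : ℚ⟦X⟧)
    rw [coeff_one]
    rfl
  | cons o w ih =>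
    rcases o with _ | i
    · show co a w m / m = coeff m (Pool.Agent.Y119.ML.In (Pool.Agent.Y119.ML.UU a 0 none * Pool.Agent.Y119.ML.LL a 0 w))
      rw [Pool.Agent.Q189.HL.UU_none, one_mul, Pool.Agent.Y119.ML.In, coeff_mk, ih]
    · show (∑ l ∈ Finset.range m, (a i : ℚ) ^ (m - 1 - l) * co a w l) / m =
        coeff m (Pool.Agent.Y119.ML.In (Pool.Agent.Y119.ML.UU a 0 (some i) * Pool.Agent.Y119.ML.LL a 0 w))
      have h5 : Pool.Agent.Y119.ML.geo ((0 : ℕ) : ℤ) = 1 := Pool.Agent.Q189.HL.geo_zero
      have h6 : Pool.Agent.Y119.ML.geo (((0 : ℕ) : ℤ) + a i) = Pool.Agent.Y119.ML.geo (a i) := by simp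
      have h7 : Pool.Agent.Y119.ML.UU a 0 (some i) = X * Pool.Agent.Y119.ML.geo (a i) := by
        show X * Pool.Agent.Y119.ML.geo ((0 : ℕ) : ℤ) * Pool.Agent.Y119.ML.geo (((0 : ℕ) : ℤ) + a i) = _
        rw [h5, h6, mul_one]
      rw [Pool.Agent.Y119.ML.In, coeff_mk, h7]
      congr 1
      rcases m with _ | m
      · rw [mul_assoc, coeff_zero_X_mul]
        simp
      · rw [mul_assoc, coeff_succ_X_mul, mul_comm, coeff_mul, Finset.Nat.sum_antidiagonal_eq_sum_range_succ_mk]
        refine Finset.sum_congr rfl fun l hl => ?_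
        rw [ih, Pool.Agent.Y119.ML.geo, coeff_mk, mul_comm]
        rfl

theorem L_eq {r : ℕ} (a : Fin r → ℤ) (w : List (Option (Fin r))) (y : ℂ) :
    L a w y = Pool.Agent.Y916.Al.evc y (Pool.Agent.Y119.ML.LL a 0 w) := by
  unfold L Pool.Agent.Y916.Al.evc
  exact tsum_congr fun m => by rw [co_eq]

theorem shuffles_eq {A : Type} (n : ℕ) : ∀ u v : List A, u.length + v.length = n → shuffles u v = Pool.Agent.Q189.HL.sh u v := by
  induction n using Nat.strong_induction_on with
  | _ n ih =>
    intro u v h
    rcases u with _ | ⟨a, u⟩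
    · rw [shuffles, Pool.Agent.Q189.HL.sh]
    · rcases v with _ | ⟨b, v⟩
      · rw [shuffles, Pool.Agent.Q189.HL.sh]
      · simp only [List.length_cons] at h
        rw [shuffles, Pool.Agent.Q189.HL.sh, ih (u.length + (b :: v).length) (by simp only [List.length_cons]; omega) _ _ rfl,
          ih ((a :: u).length + v.length) (by simp only [List.length_cons]; omega) _ _ rfl]

theorem shuffle {r : ℕ} (a : Fin r → ℤ) {u v : List (Option (Fin r))} (hu : u.getLast? ≠ some none)
    (hv : v.getLast? ≠ some none) {x : ℂ} (hx : Pool.Agent.Q189.HL.Kr a < ‖x‖) :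
    L a u (1 / x) * L a v (1 / x) = ((shuffles u v).map fun w => L a w (1 / x)).sum := by
  have hK : 0 ≤ Pool.Agent.Q189.HL.Kr a := by linarith [Pool.Agent.Q189.HL.one_le_Kr a]
  rw [shuffles_eq _ u v rfl]
  simp only [L_eq, Pool.Agent.Q189.HL.evc_eq]
  rw [← (Pool.Agent.Q189.HL.ou_list a hx _).2, ← Pool.Agent.Q189.HL.LL_mul a _ u v rfl hu hv, map_mul,
    Pool.Agent.Y120.GH.ou_mul hK (Pool.Agent.Q189.HL.Cw_LL a _) (Pool.Agent.Q189.HL.Cw_LL a _) hx]

/-- Let `a_1, …, a_k` be finite families of distinct nonzero integers. The shuffle relations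
`L_u(1 / x) L_v(1 / x) = ∑_w L_w(1 / x)` hold for all large `x`. For all `W`, `g`, `d`, `m ≥ 1` there are `B`, `C` and `c > 0`
such that for all `T ≥ 1`: (1) for every sufficiently large `H₁` and all `ζ ∈ ℂ^g`, all but at most
`C T ^ (-c) |Ints m T| ^ k` of the tuples `x ∈ (Ints m T)^k` are good for all `H` with `H₁ ≤ H ≤ H₁ ^ exp (T ^ c)`; (2) for
all `ζ ∈ ℂ^g`, all but at most `C T ^ (-c) |Ints m T| ^ k` of the tuples have the property that there are arbitrarily
large `N` such that, for all but at most `T ^ (-c) N` of the `s < N`, `x` is good for all `H` with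
`2 ^ (2 ^ s) ≤ H ≤ 2 ^ (2 ^ (s + 1))`. -/
theorem result (k : ℕ) (r : Fin k → ℕ) (a : ∀ j, Fin (r j) → ℤ) (ha : ∀ j, Function.Injective (a j))
    (h0 : ∀ j i, a j i ≠ 0) (W g d m : ℕ) (hm : 1 ≤ m) :
    (∀ j, ∃ R : ℝ, ∀ u v : List (Option (Fin (r j))), u.getLast? ≠ some none → v.getLast? ≠ some none →
      ∀ x : ℂ, R < ‖x‖ → L (a j) u (1 / x) * L (a j) v (1 / x) = ((shuffles u v).map fun w => L (a j) w (1 / x)).sum) ∧
    ∃ (B : ℕ) (C c : ℝ), 0 < c ∧ ∀ T : ℕ, 1 ≤ T →
    (∃ H₀ : ℝ, ∀ H₁ : ℝ, H₀ ≤ H₁ → ∀ ζ : Fin g → ℂ,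
      (({x : Fin k → ℂ | (∀ j, x j ∈ Ints m T) ∧ ¬ ∀ H : ℝ, H₁ ≤ H → H ≤ H₁ ^ Real.exp ((T : ℝ) ^ c) →
        Good a W d B ζ x H}.ncard : ℕ) : ℝ) ≤ C * (T : ℝ) ^ (-c) * (((Ints m T).ncard : ℕ) : ℝ) ^ k) ∧
    ∀ ζ : Fin g → ℂ, (({x : Fin k → ℂ | (∀ j, x j ∈ Ints m T) ∧ ¬ ∀ N₀ : ℕ, ∃ N, N₀ ≤ N ∧
      (({s : ℕ | s < N ∧ ¬ ∀ H : ℝ, 2 ^ (2 ^ s) ≤ H → H ≤ 2 ^ (2 ^ (s + 1)) → Good a W d B ζ x H}.ncard : ℕ) : ℝ) ≤
        (T : ℝ) ^ (-c) * N}.ncard : ℕ) : ℝ) ≤ C * (T : ℝ) ^ (-c) * (((Ints m T).ncard : ℕ) : ℝ) ^ k := by
  refine ⟨fun j => ⟨_, fun u v hu hv x hx => shuffle (a j) hu hv hx⟩, ?_⟩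
  have hgood : ∀ (B : ℕ) (ζ : Fin g → ℂ) (x : Fin k → ℂ) (H : ℝ), Good a W d B ζ x H ↔
      Pool.Agent.Q189.HL.GdL a W d B ζ x H := by
    intro B ζ x H
    unfold Good Pool.Agent.Q189.HL.GdL prod
    simp only [L_eq]
    refine forall_congr' fun ℓ => forall_congr' fun _ => forall_congr' fun _ => and_congr ?_ Iff.rfl
    refine forall_congr' fun P => forall_congr' fun _ => forall_congr' fun _ => ?_
    exact ⟨fun h b hb => h ⟨b, hb⟩, fun h hb => h hb.choose hb.choose_spec⟩
  simp only [hgood]
  exact Pool.Agent.Q189.HL.main a ha h0 W g m d hm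

end Pool.Agent.Results.MP_5d33ca_ag.NearRelationsMixedTate
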