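import Pool.Agent.Q50.EM.Fin

/-!
# The torsor of the periods of 1-motives attached to an elliptic curve, third kind included

`E = ℂ/Ω` is an elliptic curve over the algebraic numbers without complex multiplication, `p_i` and
`q_j` are elliptic logarithms of algebraic points and `u_ik` are logarithms of algebraic numbers, as
independent as possible. The 1-motive `[ℤ^r → G]`, where `G` is the extension of `E` by `𝔾_m^(s + t)`
with the parameters `q_1, …, q_s, 0, …, 0`, and where the `i`-th generator is sent to a point of `G` over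
`p_i` with coordinates `exp u_ik` in the split part, has the period matrix `periodMatrix`: its entries
are `1`, the periods `ω`, the quasi-periods `η`, the integrals of the first and second kind `p_i`, `ζ(p_i)`,
the periods `η q_j - ω ζ(q_j)` and the values `C_ij` of the integrals of the third kind, the logarithms
`u_ik` and `2πi`. The theorem: whatever the numbers `C_ij` are, the period matrix lies on no torsor over
the algebraic numbers under a smaller group than the motivic Galois group `group r s t`, which has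
dimension `4 + 2 r + 2 s + r (s + t)`.
-/

open Matrix
open scoped PeriodPair

noncomputable section

namespace Pool.Agent.Results.MP_5d33ca_ag.OneMotiveTorsors

/-- The field of algebraic numbers. -/
abbrev Qbar : IntermediateField ℚ ℂ := algebraicClosure ℚ ℂ

/-- The Weierstrass zeta function (in Lean `1/0 = 0`, so that the term with `l = 0` is `1/z`). -/
def zetaW (L : PeriodPair) (z : ℂ) : ℂ := ∑' l : L.lattice, (1 / (z - l) + 1 / l + z / l ^ 2)

/-- The quasi-period `η(w) = ζ(z + w) - ζ(z)` of the period `w` (with `z = ω₁/2`). -/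
def eta (L : PeriodPair) (w : ℂ) : ℂ := zetaW L (L.ω₁ / 2 + w) - zetaW L (L.ω₁ / 2)

/-- The indices. -/
abbrev Ix (r s t : ℕ) : Type := Fin r ⊕ (Fin 2 ⊕ (Fin s ⊕ Fin t))

/-- The set of invertible complex matrices `H` is the set of the invertible common zeros of polynomials
in the entries with algebraic coefficients. -/
def IsAlgebraicGroup {I : Type} [Fintype I] [DecidableEq I] (H : Subgroup (GL I ℂ)) : Prop :=
  ∃ S : Set (MvPolynomial (I × I) Qbar), ∀ g : GL I ℂ,
    g ∈ H ↔ ∀ f ∈ S, MvPolynomial.aeval (fun p : I × I => g p.1 p.2) f = 0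

/-- The matrix `P` lies on a torsor under `H` over the algebraic numbers: it is the product of an
element of `H` and of an invertible matrix with algebraic entries. -/
def OnTorsor {I : Type} [Fintype I] [DecidableEq I] (H : Subgroup (GL I ℂ)) (P : Matrix I I ℂ) :
    Prop :=
  ∃ h ∈ H, ∃ A : GL I Qbar,
    P = (h : Matrix I I ℂ) * (A : Matrix I I Qbar).map (algebraMap Qbar ℂ)

/-- The matrix with the block rows `(1, X, (Y, Y'))`, `(0, g, (Z, 0))`, `(0, 0, d)`. -/
def blockMatrix {r s t : ℕ} (g : Matrix (Fin 2) (Fin 2) ℂ) (X : Matrix (Fin r) (Fin 2) ℂ)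
    (Y : Matrix (Fin r) (Fin s) ℂ) (Y' : Matrix (Fin r) (Fin t) ℂ) (Z : Matrix (Fin 2) (Fin s) ℂ)
    (d : ℂ) : Matrix (Ix r s t) (Ix r s t) ℂ :=
  fromBlocks 1 (fromCols X (fromCols Y Y')) 0 (fromBlocks g (fromCols Z 0) 0 (d • 1))

/-- The period matrix. -/
def periodMatrix {r s t : ℕ} (L : PeriodPair) (p : Fin r → ℂ) (q : Fin s → ℂ)
    (u : Fin r → Fin t → ℂ) (C : Matrix (Fin r) (Fin s) ℂ) : Matrix (Ix r s t) (Ix r s t) ℂ :=
  blockMatrix !![L.ω₁, eta L L.ω₁; L.ω₂, eta L L.ω₂]
    (Matrix.of fun i => ![p i, zetaW L (p i)]) C (Matrix.of u)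
    (Matrix.of fun a j => ![eta L L.ω₁ * q j - L.ω₁ * zetaW L (q j),
      eta L L.ω₂ * q j - L.ω₂ * zetaW L (q j)] a)
    (2 * Real.pi * Complex.I)

/-- The elements of the motivic Galois group: all matrices with the block rows `(1, X, (Y, Y'))`,
`(0, g, (Z, 0))`, `(0, 0, det g)`. -/
def InGroup {r s t : ℕ} (M : GL (Ix r s t) ℂ) : Prop :=
  ∃ g X Y Y' Z, (M : Matrix (Ix r s t) (Ix r s t) ℂ) = blockMatrix g X Y Y' Z g.det

/-- Let `E = ℂ/Ω` be an elliptic curve over the algebraic numbers without complex multiplication, let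
`p_i`, `q_j` be elliptic logarithms of algebraic points such that `ω₁, ω₂, p_i, q_j` are linearly
independent over `ℚ`, let `u_ik` be logarithms of algebraic numbers such that `2πi`, `u_ik` are linearly
independent over `ℚ` and let `C_ij` be arbitrary complex numbers. The matrices of `InGroup` are an
algebraic group, the period matrix is on a torsor under it over the algebraic numbers, and every algebraic
group over the algebraic numbers with this property contains this group. -/
theorem result (L : PeriodPair) (h2 : IsAlgebraic ℚ L.g₂) (h3 : IsAlgebraic ℚ L.g₃)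
    (hE : ∀ α : ℂ, (∀ w ∈ L.lattice, α * w ∈ L.lattice) → ∃ m : ℤ, α = m)
    {r s t : ℕ} (p : Fin r → ℂ) (q : Fin s → ℂ) (hp : ∀ i, IsAlgebraic ℚ (℘[L] (p i)))
    (hq : ∀ j, IsAlgebraic ℚ (℘[L] (q j)))
    (hind : LinearIndependent ℚ (Sum.elim ![L.ω₁, L.ω₂] (Sum.elim p q)))
    (u : Fin r → Fin t → ℂ) (hu : ∀ i k, IsAlgebraic ℚ (Complex.exp (u i k)))
    (hindu : LinearIndependent ℚ (fun x : Option (Fin r × Fin t) =>
      x.elim (2 * Real.pi * Complex.I) fun y => u y.1 y.2))
    (C : Matrix (Fin r) (Fin s) ℂ) :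
    ∃ G : Subgroup (GL (Ix r s t) ℂ), (∀ M, M ∈ G ↔ InGroup M) ∧ IsAlgebraicGroup G ∧
      OnTorsor G (periodMatrix L p q u C) ∧
      ∀ H : Subgroup (GL (Ix r s t) ℂ), IsAlgebraicGroup H → OnTorsor H (periodMatrix L p q u C) →
        G ≤ H := by
  obtain ⟨m, hm, hleg⟩ := Pool.Agent.Q50.EM.legendre L
  have hT := Pool.Agent.Q50.EM.ell_tr L h2 h3 hE m hm hleg p q hp hq hind u hu hindu C
  have hD : (Pool.Agent.Q50.EM.ellDat L m hm hleg p q u C).per = periodMatrix L p q u C := by
    rw [Pool.Agent.Q50.EM.Dat.per, periodMatrix, blockMatrix, Pool.Agent.Q50.EM.block]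
    congr 2
    congr 1
    ext a j
    fin_cases a
    · simp only [Pool.Agent.Q50.EM.ellDat, Matrix.mul_apply, Fin.sum_univ_two, Matrix.of_apply,
        Fin.zero_eta, Matrix.cons_val_zero, Matrix.cons_val_one, Matrix.cons_val',
        Matrix.cons_val_fin_one]
      change L.ω₁ * -zetaW L (q j) + eta L L.ω₁ * q j = _
      ring
    · simp only [Pool.Agent.Q50.EM.ellDat, Matrix.mul_apply, Fin.sum_univ_two, Matrix.of_apply,
        Fin.mk_one, Matrix.cons_val_zero, Matrix.cons_val_one, Matrix.cons_val',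
        Matrix.cons_val_fin_one]
      change L.ω₂ * -zetaW L (q j) + eta L L.ω₂ * q j = _
      ring
  refine ⟨Pool.Agent.Q50.EM.motGroup r s t, ?_, Pool.Agent.Q50.EM.motGroup_alg _, ?_, ?_⟩
  · intro M
    constructor
    · rintro ⟨g, X, Y, Z, h⟩
      refine ⟨g, X, Matrix.of fun i j => Y i (Sum.inl j), Matrix.of fun i k => Y i (Sum.inr k), Z, ?_⟩
      rw [h, blockMatrix, Pool.Agent.Q50.EM.block]
      congr 2
      ext i (j | j) <;> rfl
    · rintro ⟨g, X, Y, Y', Z, h⟩
      exact ⟨g, X, fromCols Y Y', Z, h⟩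
  · rw [← hD]
    exact Pool.Agent.Q50.EM.onTor _ _
  · intro H hH hP
    rw [← hD] at hP
    exact Pool.Agent.Q50.EM.motGroup_le _ hT H hH hP

end Pool.Agent.Results.MP_5d33ca_ag.OneMotiveTorsors
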